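import Pool.Agent.Y362.MH.Bad

/-!
# Prime divisors of some coefficients of random multihomogeneous forms
-/

set_option autoImplicit false

namespace Pool.Agent.Q84.RM

open Pool.Agent.Y716.M Pool.Agent.Y362.MH Finset Filter

/-! ### Prime factors of integers -/

/-- the product of the primes in `(M, P]` -/
def PQ (M P : ℕ) : ℕ := ∏ p ∈ (Ioc M P).filter Nat.Prime, p

theorem PQ_pos (M P : ℕ) : 0 < PQ M P :=
  Finset.prod_pos fun _ hp => (mem_filter.1 hp).2.pos

theorem totient_PQ (M P : ℕ) : ((PQ M P).totient : ℝ) =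
    (PQ M P : ℝ) * ∏ p ∈ (Ioc M P).filter Nat.Prime, (1 - (p : ℝ)⁻¹) := by
  have h := Nat.totient_eq_mul_prod_factors (PQ M P)
  have h1 : (PQ M P).primeFactors = (Ioc M P).filter Nat.Prime :=
    Nat.primeFactors_prod fun p hp => (mem_filter.1 hp).2
  rw [h1] at h
  have h2 : (((PQ M P).totient : ℚ) : ℝ) =
      (((PQ M P : ℚ) * ∏ p ∈ (Ioc M P).filter Nat.Prime, (1 - (p : ℚ)⁻¹) : ℚ) : ℝ) := by
    rw [h]
  push_cast at h2
  exact h2

/-- the density of the integers without prime factors in `(M, P]` tends to zero -/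
theorem prod_small (M : ℕ) {ε : ℝ} (hε : 0 < ε) : ∃ P : ℕ, M ≤ P ∧
    ∏ p ∈ (Ioc M P).filter Nat.Prime, (1 - (p : ℝ)⁻¹) ≤ ε := by
  have h1 := not_summable_one_div_on_primes
  have h0 : ∀ k : ℕ, 0 ≤ Set.indicator {p : ℕ | p.Prime} (fun n : ℕ => (1 : ℝ) / n) k := by
    intro k
    apply Set.indicator_nonneg
    intro x _
    positivity
  rw [not_summable_iff_tendsto_nat_atTop_of_nonneg h0] at h1
  obtain ⟨N, hN⟩ := (Filter.tendsto_atTop.1 h1
    (∑ i ∈ range (M + 1), Set.indicator {p : ℕ | p.Prime} (fun n : ℕ => (1 : ℝ) / n) i +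
      -Real.log ε)).exists_forall_of_atTop
  refine ⟨max M N, le_max_left _ _, ?_⟩
  set P := max M N with hP
  have h2 := hN (P + 1) ((le_max_right M N).trans (Nat.le_succ _))
  have h3 : ∑ i ∈ range (P + 1), Set.indicator {p : ℕ | p.Prime} (fun n : ℕ => (1 : ℝ) / n) i =
      ∑ i ∈ range (M + 1), Set.indicator {p : ℕ | p.Prime} (fun n : ℕ => (1 : ℝ) / n) i +
      ∑ p ∈ (Ioc M P).filter Nat.Prime, (p : ℝ)⁻¹ := by
    rw [← Finset.sum_range_add_sum_Ico _ (Nat.succ_le_succ (le_max_left M N) : M + 1 ≤ P + 1)]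
    congr 1
    rw [Finset.sum_filter]
    have h4 : Ico (M + 1) (P + 1) = Ioc M P := by
      ext x
      simp only [Finset.mem_Ico, Finset.mem_Ioc]
      omega
    rw [h4]
    refine Finset.sum_congr rfl fun x _ => ?_
    by_cases hx : x.Prime
    · rw [Set.indicator_of_mem (show x ∈ {p : ℕ | p.Prime} from hx), if_pos hx, one_div]
    · rw [Set.indicator_of_notMem (show x ∉ {p : ℕ | p.Prime} from hx), if_neg hx]
  rw [h3] at h2
  have h4 : -Real.log ε ≤ ∑ p ∈ (Ioc M P).filter Nat.Prime, (p : ℝ)⁻¹ := by linarith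
  calc ∏ p ∈ (Ioc M P).filter Nat.Prime, (1 - (p : ℝ)⁻¹)
      ≤ ∏ p ∈ (Ioc M P).filter Nat.Prime, Real.exp (-(p : ℝ)⁻¹) := by
        apply Finset.prod_le_prod
        · intro p hp
          have h5 : (1 : ℝ) ≤ p := by exact_mod_cast (mem_filter.1 hp).2.one_lt.le
          have h6 := inv_le_one_of_one_le₀ h5
          linarith
        · intro p _
          have := Real.add_one_le_exp (-(p : ℝ)⁻¹)
          linarith
    _ = Real.exp (-∑ p ∈ (Ioc M P).filter Nat.Prime, (p : ℝ)⁻¹) := by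
        rw [← Real.exp_sum, Finset.sum_neg_distrib]
    _ ≤ Real.exp (Real.log ε) := by
        apply Real.exp_le_exp.2
        linarith
    _ = ε := Real.exp_log hε

open scoped Classical in
/-- integers without prime factors in `(M, P]` -/
noncomputable def free (M P H : ℕ) : Finset ℤ :=
  (Finset.Icc (-(H : ℤ)) H).filter fun a => ∀ p : ℕ, p.Prime → M < p → p ≤ P → ¬ (p : ℤ) ∣ a

/-- multiples of `p` -/
noncomputable def mult (p H : ℕ) : Finset ℤ :=
  (Finset.Icc (-(H : ℤ)) H).filter fun a => (p : ℤ) ∣ a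

theorem card_free_le (M P H : ℕ) :
    (free M P H).card ≤ 2 * ((PQ M P).totient * ((H + 1) / PQ M P + 1)) := by
  classical
  have h1 : (free M P H).card ≤ 2 * (((Finset.Ico 0 (0 + (H + 1))).filter
      fun x => (PQ M P).Coprime x)).card := by
    have h2 : (free M P H) ⊆ ((Finset.Ico 0 (0 + (H + 1))).filter
        fun x => (PQ M P).Coprime x).image (fun k : ℕ => (k : ℤ)) ∪
        ((Finset.Ico 0 (0 + (H + 1))).filter
        fun x => (PQ M P).Coprime x).image (fun k : ℕ => -(k : ℤ)) := by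
      intro a ha
      unfold free at ha
      rw [mem_filter, Finset.mem_Icc, ← abs_le, Int.abs_eq_natAbs] at ha
      obtain ⟨h3, h4⟩ := ha
      have h5 : a.natAbs ∈ (Finset.Ico 0 (0 + (H + 1))).filter fun x => (PQ M P).Coprime x := by
        rw [mem_filter, Finset.mem_Ico]
        refine ⟨⟨Nat.zero_le _, by omega⟩, ?_⟩
        unfold PQ
        apply Nat.Coprime.prod_left
        intro p hp
        rw [mem_filter, Finset.mem_Ioc] at hp
        rw [Nat.Prime.coprime_iff_not_dvd hp.2]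
        intro hd
        exact h4 p hp.2 hp.1.1 hp.1.2 (Int.natCast_dvd.2 hd)
      rw [mem_union, mem_image, mem_image]
      rcases Int.natAbs_eq a with h6 | h6
      · left; exact ⟨_, h5, h6.symm⟩
      · right; exact ⟨_, h5, h6.symm⟩
    refine (card_le_card h2).trans ((card_union_le _ _).trans ?_)
    have := card_image_le (s := ((Finset.Ico 0 (0 + (H + 1))).filter
        fun x => (PQ M P).Coprime x)) (f := (fun k : ℕ => (k : ℤ)))
    have := card_image_le (s := ((Finset.Ico 0 (0 + (H + 1))).filter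
        fun x => (PQ M P).Coprime x)) (f := (fun k : ℕ => -(k : ℤ)))
    omega
  refine h1.trans (Nat.mul_le_mul_left 2 ?_)
  exact Nat.Ico_filter_coprime_le 0 (H + 1) (PQ_pos M P).ne'

theorem card_mult_le {p : ℕ} (hp : 1 ≤ p) (H : ℕ) : (mult p H).card ≤ 2 * (H / p) + 1 := by
  classical
  have h1 : (mult p H) ⊆ (Finset.Icc (-((H / p : ℕ) : ℤ)) (H / p : ℕ)).image
      (fun b : ℤ => (p : ℤ) * b) := by
    intro a ha
    unfold mult at ha
    rw [mem_filter, Finset.mem_Icc, ← abs_le] at ha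
    obtain ⟨h2, b, rfl⟩ := ha
    rw [mem_image]
    refine ⟨b, ?_, rfl⟩
    rw [Finset.mem_Icc, ← abs_le]
    rw [abs_mul, Nat.abs_cast] at h2
    rw [Int.abs_eq_natAbs] at h2 ⊢
    have h3 : p * b.natAbs ≤ H := by exact_mod_cast h2
    have h4 : b.natAbs ≤ H / p := by
      rw [Nat.le_div_iff_mul_le (by omega)]
      rw [mul_comm]; exact h3
    exact_mod_cast h4
  refine (card_le_card h1).trans (card_image_le.trans ?_)
  rw [Int.card_Icc]
  omega

/-- the proportion of multiples of `p` -/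
theorem card_mult_real {p H : ℕ} (hp : 1 ≤ p) (hH : p ≤ H) :
    ((mult p H).card : ℝ) ≤ 2 / p * (2 * H + 1) := by
  have h1 : ((mult p H).card : ℝ) ≤ 2 * ((H / p : ℕ) : ℝ) + 1 := by
    exact_mod_cast card_mult_le hp H
  have h2 : ((H / p : ℕ) : ℝ) ≤ (H : ℝ) / p := Nat.cast_div_le
  have hp0 : (0 : ℝ) < p := by exact_mod_cast hp
  have h3 : (1 : ℝ) ≤ (H : ℝ) / p := by
    rw [le_div_iff₀ hp0, one_mul]
    exact_mod_cast hH
  have h4 : 2 / (p : ℝ) * (2 * H + 1) = 4 * ((H : ℝ) / p) + 2 / p := by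
    field_simp
    ring
  rw [h4]
  have h5 : (0 : ℝ) ≤ 2 / p := by positivity
  linarith

/-! ### Forms -/

variable {r : ℕ} {n : Fin r → ℕ}

open scoped Classical in
/-- two coefficients in given sets -/
theorem count_two (d : Fin r → ℕ) (H : ℕ) (T T' : Finset ℤ) {m m' : Var n →₀ ℕ}
    (hm : m ∈ monsM n d) (hm' : m' ∈ monsM n d) (hne : m ≠ m') :
    (((formsM n d (H : ℝ)).filter (fun f => f.coeff m ∈ T ∧ f.coeff m' ∈ T')).card : ℝ) *
      (2 * H + 1) ^ 2 ≤ T.card * T'.card * (formsM n d (H : ℝ)).card := by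
  set U : (Var n →₀ ℕ) → Finset ℤ := fun s => if s = m then T else if s = m' then T' else
    Finset.Icc (-(H : ℤ)) H with hU
  have h1 : ((formsM n d (H : ℝ)).filter (fun f => f.coeff m ∈ T ∧ f.coeff m' ∈ T')).card ≤
      (Fintype.piFinset (fun s : monsM n d => U s.1)).card := by
    apply Finset.card_le_card_of_injOn (fun f s => f.coeff s.1)
    · intro f hf
      rw [Finset.mem_coe, Finset.mem_filter, mem_formsM] at hf
      rw [Finset.mem_coe, Fintype.mem_piFinset]
      rintro ⟨s, hs⟩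
      simp only [hU]
      split_ifs with h2 h3
      · rw [h2]; exact hf.2.1
      · rw [h3]; exact hf.2.2
      · rw [Finset.mem_Icc, ← abs_le]
        have := hf.1.2 s
        exact_mod_cast this
    · intro f hf g hg hfg
      rw [Finset.mem_coe, Finset.mem_filter, mem_formsM] at hf hg
      apply MvPolynomial.ext
      intro s
      by_cases hs : s ∈ monsM n d
      · exact congrFun hfg ⟨s, hs⟩
      · rw [hf.1.coeff_eq_zero hs, hg.1.coeff_eq_zero hs]
  have hI : (Finset.Icc (-(H : ℤ)) H).card = 2 * H + 1 := by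
    rw [Int.card_Icc]; omega
  have h2 : (Fintype.piFinset (fun s : monsM n d => U s.1)).card * (2 * H + 1) ^ 2 =
      T.card * T'.card * (formsM n d (H : ℝ)).card := by
    rw [Fintype.card_piFinset, Finset.prod_coe_sort (monsM n d) (fun s => (U s).card),
      card_formsM d (by positivity : (0 : ℝ) ≤ H), Nat.floor_natCast]
    have hm2 : m' ∈ (monsM n d).erase m := Finset.mem_erase.2 ⟨hne.symm, hm'⟩
    rw [← Finset.mul_prod_erase _ _ hm, ← Finset.mul_prod_erase _ _ hm2]
    have h3 : U m = T := by simp [hU]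
    have h4 : U m' = T' := by simp [hU, hne.symm]
    have h5 : ∏ s ∈ ((monsM n d).erase m).erase m', (U s).card =
        (2 * H + 1) ^ (((monsM n d).erase m).erase m').card := by
      apply Finset.prod_eq_pow_card
      intro s hs
      rw [Finset.mem_erase, Finset.mem_erase] at hs
      rw [hU]
      simp only
      rw [if_neg hs.2.1, if_neg hs.1, hI]
    have h6 : (((monsM n d).erase m).erase m').card + 2 = (monsM n d).card := by
      rw [Finset.card_erase_of_mem hm2, Finset.card_erase_of_mem hm]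
      have h7 : 0 < (monsM n d).card := Finset.card_pos.2 ⟨m, hm⟩
      have h8 : 0 < ((monsM n d).erase m).card := Finset.card_pos.2 ⟨m', hm2⟩
      rw [Finset.card_erase_of_mem hm] at h8
      omega
    rw [h3, h4, h5, ← h6, pow_add]
    ring
  have h3 : ((formsM n d (H : ℝ)).filter
      (fun f => f.coeff m ∈ T ∧ f.coeff m' ∈ T')).card * (2 * H + 1) ^ 2 ≤
      T.card * T'.card * (formsM n d (H : ℝ)).card := by
    rw [← h2]
    exact Nat.mul_le_mul_right _ h1
  exact_mod_cast h3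

/-- the pivots: the first coordinate of every block -/
def piv (n : Fin r → ℕ) : ∀ i, Fin (n i + 1) := fun _ => 0

/-- the last coordinate of the block `l` -/
def fv (hn : ∀ i, 1 ≤ n i) (l : Fin r) : Fr (piv n) :=
  ⟨⟨l, Fin.last (n l)⟩, by
    intro h
    have h1 := congrArg Fin.val h
    have h2 := hn l
    simp only [piv, Fin.val_last, Fin.val_zero] at h1
    omega⟩

/-- a prime `p ≤ P` for which `(1 : 0 : … : 0; 1 : 0 : … : 0; …)` is a zero of `f` modulo `p` at
which a derivative in the directions of each block is not zero -/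
def GoodP (d : Fin r → ℕ) (hn : ∀ i, 1 ≤ n i) (P : ℕ) (f : MvPolynomial (Var n) ℤ) : Prop :=
  ∃ p : ℕ, p.Prime ∧ p ≤ P ∧ (p : ℤ) ∣ f.coeff (mk d (piv n) none) ∧
    ∀ l, ¬ (p : ℤ) ∣ f.coeff (mk d (piv n) (some (fv hn l)))

open scoped Classical in
theorem count_good (hr : 1 ≤ r) (d : Fin r → ℕ) (hd : ∀ i, 1 ≤ d i) (hn : ∀ i, 1 ≤ n i) {ε : ℝ}
    (hε : 0 < ε) : ∃ P H₀ : ℕ, ∀ H : ℕ, H₀ ≤ H →
      (((formsM n d (H : ℝ)).filter (fun f => ¬ GoodP d hn P f)).card : ℝ) ≤
        ε * (formsM n d (H : ℝ)).card := by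
  obtain ⟨M, hM⟩ := exists_nat_gt (8 * r / ε + 1)
  have hM0 : (1 : ℝ) < M := by
    have : (0 : ℝ) ≤ 8 * r / ε := by positivity
    linarith
  have hM1 : M ≠ 0 := by
    rintro rfl
    norm_num at hM0
  have hMr : 4 * (r : ℝ) * (M : ℝ)⁻¹ ≤ ε / 2 := by
    have h1 : 8 * r / ε < M := by linarith
    rw [div_lt_iff₀ hε] at h1
    rw [← div_eq_mul_inv, div_le_iff₀ (by linarith)]
    linarith
  obtain ⟨P, hMP, hP⟩ := prod_small M (ε := ε / 8) (by positivity)
  refine ⟨P, max P (PQ M P), fun H hH => ?_⟩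
  have hHP : P ≤ H := (le_max_left _ _).trans hH
  have hHQ : PQ M P ≤ H := (le_max_right _ _).trans hH
  set N : ℝ := ((formsM n d (H : ℝ)).card : ℝ) with hN
  have hN0 : 0 ≤ N := Nat.cast_nonneg _
  have hH1 : (0 : ℝ) < 2 * H + 1 := by positivity
  obtain ⟨l0⟩ : Nonempty (Fin r) := ⟨⟨0, hr⟩⟩
  have hA := mk_mem hd (piv n) none
  have hB := fun l => mk_mem hd (piv n) (some (fv hn l))
  have hAB : ∀ l, mk d (piv n) none ≠ mk d (piv n) (some (fv hn l)) := fun l h => by
    have := mk_inj d (piv n) h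
    exact absurd this (by simp)
  -- the first coefficient has no prime factor in `(M, P]`
  have hI : (Finset.Icc (-(H : ℤ)) H).card = 2 * H + 1 := by
    rw [Int.card_Icc]; omega
  have hfree : ((free M P H).card : ℝ) ≤ ε / 2 * (2 * H + 1) := by
    have h1 : ((free M P H).card : ℝ) ≤ 2 * ((PQ M P).totient * (((H + 1) / PQ M P : ℕ) + 1)) := by
      exact_mod_cast card_free_le M P H
    have hQ0 : (0 : ℝ) < PQ M P := by exact_mod_cast PQ_pos M P
    have h2 : (((H + 1) / PQ M P : ℕ) : ℝ) ≤ ((H : ℝ) + 1) / PQ M P := by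
      have := Nat.cast_div_le (α := ℝ) (m := H + 1) (n := PQ M P)
      push_cast at this
      exact this
    have h3 : ((PQ M P).totient : ℝ) ≤ PQ M P * (ε / 8) := by
      rw [totient_PQ]
      exact mul_le_mul_of_nonneg_left hP hQ0.le
    have h4 : ((PQ M P : ℕ) : ℝ) ≤ H := by exact_mod_cast hHQ
    calc ((free M P H).card : ℝ)
        ≤ 2 * ((PQ M P).totient * (((H + 1) / PQ M P : ℕ) + 1)) := h1
      _ ≤ 2 * ((PQ M P * (ε / 8)) * (((H : ℝ) + 1) / PQ M P + 1)) := by gcongr
      _ = ε / 4 * (H + 1 + PQ M P) := by field_simp; ring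
      _ ≤ ε / 4 * (H + 1 + H) := by gcongr
      _ ≤ ε / 2 * (2 * H + 1) := by nlinarith
  have hF1 : (((formsM n d (H : ℝ)).filter
      (fun f => f.coeff (mk d (piv n) none) ∈ free M P H)).card : ℝ) ≤ ε / 2 * N := by
    have h1 := count_two d H (free M P H) (Finset.Icc (-(H : ℤ)) H) hA (hB l0) (hAB l0)
    have h2 : (formsM n d (H : ℝ)).filter
        (fun f => f.coeff (mk d (piv n) none) ∈ free M P H) ⊆
        (formsM n d (H : ℝ)).filter
        (fun f => f.coeff (mk d (piv n) none) ∈ free M P H ∧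
          f.coeff (mk d (piv n) (some (fv hn l0))) ∈ Finset.Icc (-(H : ℤ)) H) := by
      intro f hf
      rw [mem_filter] at hf ⊢
      refine ⟨hf.1, hf.2, ?_⟩
      rw [Finset.mem_Icc, ← abs_le]
      have := (mem_formsM.1 hf.1).2 (mk d (piv n) (some (fv hn l0)))
      exact_mod_cast this
    have h3 : (((formsM n d (H : ℝ)).filter
      (fun f => f.coeff (mk d (piv n) none) ∈ free M P H)).card : ℝ) * (2 * H + 1) ^ 2 ≤
      (ε / 2 * N) * (2 * H + 1) ^ 2 := by
      calc _ ≤ (((formsM n d (H : ℝ)).filter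
        (fun f => f.coeff (mk d (piv n) none) ∈ free M P H ∧
          f.coeff (mk d (piv n) (some (fv hn l0))) ∈ Finset.Icc (-(H : ℤ)) H)).card : ℝ) *
            (2 * H + 1) ^ 2 := by
            gcongr
        _ ≤ (free M P H).card * (Finset.Icc (-(H : ℤ)) H).card * N := h1
        _ ≤ (ε / 2 * (2 * H + 1)) * (2 * H + 1) * N := by
            rw [hI]
            push_cast
            gcongr
        _ = _ := by ring
    exact le_of_mul_le_mul_right h3 (by positivity)
  -- a common prime factor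
  have hF2 : ∀ l, ∀ p ∈ (Ioc M P).filter Nat.Prime, (((formsM n d (H : ℝ)).filter
      (fun f => f.coeff (mk d (piv n) none) ∈ mult p H ∧
        f.coeff (mk d (piv n) (some (fv hn l))) ∈ mult p H)).card : ℝ) ≤
        4 * ((p : ℝ) ^ 2)⁻¹ * N := by
    intro l p hp
    rw [mem_filter, Finset.mem_Ioc] at hp
    have h1 := count_two d H (mult p H) (mult p H) hA (hB l) (hAB l)
    have h2 := card_mult_real hp.2.one_lt.le (hp.1.2.trans hHP)
    have hp0 : (0 : ℝ) < p := by exact_mod_cast hp.2.pos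
    have h3 : (((formsM n d (H : ℝ)).filter
      (fun f => f.coeff (mk d (piv n) none) ∈ mult p H ∧
        f.coeff (mk d (piv n) (some (fv hn l))) ∈ mult p H)).card : ℝ) * (2 * H + 1) ^ 2 ≤
        (4 * ((p : ℝ) ^ 2)⁻¹ * N) * (2 * H + 1) ^ 2 := by
      refine h1.trans ?_
      calc _ ≤ (2 / p * (2 * H + 1)) * (2 / p * (2 * H + 1)) * N := by gcongr
        _ = _ := by field_simp; ring
    exact le_of_mul_le_mul_right h3 (by positivity)
  -- all together
  have hsub : (formsM n d (H : ℝ)).filter (fun f => ¬ GoodP d hn P f) ⊆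
      (formsM n d (H : ℝ)).filter (fun f => f.coeff (mk d (piv n) none) ∈ free M P H) ∪
      (Finset.univ : Finset (Fin r)).biUnion fun l =>
        ((Ioc M P).filter Nat.Prime).biUnion fun p => (formsM n d (H : ℝ)).filter
      (fun f => f.coeff (mk d (piv n) none) ∈ mult p H ∧
        f.coeff (mk d (piv n) (some (fv hn l))) ∈ mult p H) := by
    intro f hf
    rw [mem_filter] at hf
    have hbd : ∀ m, f.coeff m ∈ Finset.Icc (-(H : ℤ)) H := by
      intro m
      rw [Finset.mem_Icc, ← abs_le]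
      have := (mem_formsM.1 hf.1).2 m
      exact_mod_cast this
    rw [mem_union]
    by_contra hcon
    rw [not_or] at hcon
    obtain ⟨hc1, hc2⟩ := hcon
    have h1 : ∃ p : ℕ, p.Prime ∧ M < p ∧ p ≤ P ∧ (p : ℤ) ∣ f.coeff (mk d (piv n) none) := by
      by_contra hno
      push Not at hno
      exact hc1 (mem_filter.2 ⟨hf.1, mem_filter.2 ⟨hbd _, hno⟩⟩)
    obtain ⟨p, hp, hp1, hp2, hp3⟩ := h1
    refine hf.2 ⟨p, hp, hp2, hp3, fun l hl => hc2 ?_⟩
    rw [mem_biUnion]
    refine ⟨l, mem_univ _, ?_⟩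
    rw [mem_biUnion]
    exact ⟨p, mem_filter.2 ⟨Finset.mem_Ioc.2 ⟨hp1, hp2⟩, hp⟩, mem_filter.2 ⟨hf.1,
      mem_filter.2 ⟨hbd _, hp3⟩, mem_filter.2 ⟨hbd _, hl⟩⟩⟩
  have hsum : ∑ p ∈ (Ioc M P).filter Nat.Prime, ((p : ℝ) ^ 2)⁻¹ ≤ (M : ℝ)⁻¹ := by
    calc ∑ p ∈ (Ioc M P).filter Nat.Prime, ((p : ℝ) ^ 2)⁻¹
        ≤ ∑ p ∈ Ioc M P, ((p : ℝ) ^ 2)⁻¹ :=
          Finset.sum_le_sum_of_subset_of_nonneg (filter_subset _ _) fun _ _ _ => by positivity
      _ ≤ (M : ℝ)⁻¹ - (P : ℝ)⁻¹ := sum_Ioc_inv_sq_le_sub hM1 hMP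
      _ ≤ (M : ℝ)⁻¹ := by
          have : (0 : ℝ) ≤ (P : ℝ)⁻¹ := by positivity
          linarith
  calc (((formsM n d (H : ℝ)).filter (fun f => ¬ GoodP d hn P f)).card : ℝ)
      ≤ (((formsM n d (H : ℝ)).filter
          (fun f => f.coeff (mk d (piv n) none) ∈ free M P H)).card : ℝ) +
        ∑ l : Fin r, ∑ p ∈ (Ioc M P).filter Nat.Prime, (((formsM n d (H : ℝ)).filter
          (fun f => f.coeff (mk d (piv n) none) ∈ mult p H ∧
          f.coeff (mk d (piv n) (some (fv hn l))) ∈ mult p H)).card : ℝ) := by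
        have h1 := (card_le_card hsub).trans (card_union_le _ _)
        have h2 : ((Finset.univ : Finset (Fin r)).biUnion fun l =>
          ((Ioc M P).filter Nat.Prime).biUnion fun p => (formsM n d (H : ℝ)).filter
          (fun f => f.coeff (mk d (piv n) none) ∈ mult p H ∧
          f.coeff (mk d (piv n) (some (fv hn l))) ∈ mult p H)).card ≤
          ∑ l : Fin r, ∑ p ∈ (Ioc M P).filter Nat.Prime, ((formsM n d (H : ℝ)).filter
          (fun f => f.coeff (mk d (piv n) none) ∈ mult p H ∧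
          f.coeff (mk d (piv n) (some (fv hn l))) ∈ mult p H)).card := by
          refine card_biUnion_le.trans (Finset.sum_le_sum fun l _ => ?_)
          exact card_biUnion_le
        have h3 := h1.trans (Nat.add_le_add_left h2 _)
        exact_mod_cast h3
    _ ≤ ε / 2 * N + ∑ _l : Fin r, ∑ p ∈ (Ioc M P).filter Nat.Prime, 4 * ((p : ℝ) ^ 2)⁻¹ * N :=
        add_le_add hF1 (Finset.sum_le_sum fun l _ => Finset.sum_le_sum fun p hp => hF2 l p hp)
    _ = ε / 2 * N + 4 * r * (∑ p ∈ (Ioc M P).filter Nat.Prime, ((p : ℝ) ^ 2)⁻¹) * N := by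
        rw [Finset.sum_const, Finset.card_univ, Fintype.card_fin, nsmul_eq_mul, ← Finset.sum_mul,
          ← Finset.mul_sum]
        ring
    _ ≤ ε / 2 * N + 4 * r * (M : ℝ)⁻¹ * N := by gcongr
    _ ≤ ε / 2 * N + ε / 2 * N := by gcongr
    _ = ε * N := by ring

end Pool.Agent.Q84.RM
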