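import Pool.Agent.Y362.MH.Bad
import Pool.Agent.Y362.MH.Norm
import Pool.Agent.Y697.C13.Main

/-!
# Almost all integral multihomogeneous forms are smooth
-/

set_option autoImplicit false

namespace Pool.Agent.Q84.RM

open Pool.Agent.Y716.M Pool.Agent.Y362.MH MvPolynomial
open Pool.Agent.Y697.C13 (exists_ker sz mv dv map_mv map_dv aeval_mon)
open scoped Classical

variable {r : ℕ} {n : Fin r → ℕ}

/-- there is no singular point over a field of characteristic zero -/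
def SmoothM (f : MvPolynomial (Var n) ℤ) : Prop :=
  ∀ (K : Type) [Field K] [CharZero K] (x : Var n → K), (∀ l, ∃ i, x ⟨l, i⟩ ≠ 0) →
    aeval x f = 0 → ∃ a, aeval x (pderiv a f) ≠ 0

section
variable (d : Fin r → ℕ) (ρ : ∀ i, Fin (n i + 1))

/-- the free exponents -/
noncomputable def fe : Finset (Var n →₀ ℕ) := (monsM n d).filter fun m => ∀ k, mk d ρ k ≠ m

variable {A B : Type} [CommRing A] [CommRing B]

/-- first step -/
noncomputable def c1 (c : (Var n →₀ ℕ) → A) (x : Var n → A) (m : Var n →₀ ℕ) : A :=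
  if h : ∃ b : Fr ρ, mk d ρ (some b) = m then - ∑ m' ∈ fe d ρ, c m' * dv x h.choose.1 m' else c m

/-- second step -/
noncomputable def c2 (c : (Var n →₀ ℕ) → A) (x : Var n → A) (m : Var n →₀ ℕ) : A :=
  if m = mk d ρ none then - ∑ m' ∈ (monsM n d).erase (mk d ρ none), c1 d ρ c x m' * mv x m'
  else c1 d ρ c x m

theorem map_c1 (g : A →+* B) (c : (Var n →₀ ℕ) → A) (x : Var n → A) (m : Var n →₀ ℕ) :
    g (c1 d ρ c x m) = c1 d ρ (fun m => g (c m)) (fun a => g (x a)) m := by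
  unfold c1
  split_ifs with h
  · rw [map_neg, map_sum]
    congr 1
    refine Finset.sum_congr rfl fun m' _ => ?_
    rw [map_mul, map_dv]
  · rfl

theorem map_c2 (g : A →+* B) (c : (Var n →₀ ℕ) → A) (x : Var n → A) (m : Var n →₀ ℕ) :
    g (c2 d ρ c x m) = c2 d ρ (fun m => g (c m)) (fun a => g (x a)) m := by
  unfold c2
  split_ifs with h
  · rw [map_neg, map_sum]
    congr 1
    refine Finset.sum_congr rfl fun m' _ => ?_
    rw [map_mul, map_c1, map_mv]
  · exact map_c1 d ρ g c x m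

theorem mv_one {x : Var n → A} (hx : ∀ i, x ⟨i, ρ i⟩ = 1) {s : Var n →₀ ℕ}
    (hs : ∀ a : Var n, a.2 ≠ ρ a.1 → s a = 0) : mv x s = 1 := by
  have := prod_pow_eq_one ρ x hx s hs
  rw [Finsupp.prod_fintype _ _ (fun a => pow_zero _)] at this
  exact this

theorem mem_cases {m : Var n →₀ ℕ} (hm : m ∈ monsM n d) :
    m ∈ fe d ρ ∨ m = mk d ρ none ∨ ∃ b : Fr ρ, mk d ρ (some b) = m := by
  by_cases h : m ∈ fe d ρ
  · exact Or.inl h
  · right
    unfold fe at h
    rw [Finset.mem_filter, not_and] at h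
    have h1 := h hm
    push Not at h1
    obtain ⟨k, hk⟩ := h1
    cases k with
    | none => exact Or.inl hk.symm
    | some b => exact Or.inr ⟨b, hk⟩

theorem sum_fe (hd : ∀ i, 1 ≤ d i) (g : (Var n →₀ ℕ) → A) : ∑ m ∈ monsM n d, g m =
    ∑ m ∈ fe d ρ, g m + ∑ k, g (mk d ρ k) := by
  rw [← Finset.sum_filter_add_sum_filter_not (monsM n d) (fun m => ∀ k, mk d ρ k ≠ m)]
  congr 1
  symm
  rw [← Finset.sum_image (s := (Finset.univ : Finset (Option (Fr ρ)))) (f := g)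
    (fun a _ b _ h => mk_inj d ρ h)]
  apply Finset.sum_congr _ fun _ _ => rfl
  ext m
  rw [Finset.mem_image, Finset.mem_filter]
  push Not
  constructor
  · rintro ⟨k, -, rfl⟩
    exact ⟨mk_mem hd ρ k, k, rfl⟩
  · rintro ⟨_, k, hk⟩
    exact ⟨k, Finset.mem_univ _, hk⟩

variable (c : (Var n →₀ ℕ) → A) {x : Var n → A}

theorem dv_mk (hx : ∀ i, x ⟨i, ρ i⟩ = 1) (b : Fr ρ) (k : Option (Fr ρ)) :
    dv x b.1 (mk d ρ k) = if k = some b then 1 else 0 := by
  unfold dv
  split_ifs with h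
  · subst h
    rw [mv_one ρ hx, mk_some, if_pos rfl, Nat.cast_one, mul_one]
    intro a ha
    rw [Finsupp.tsub_apply, mk_some]
    by_cases hab : a = b.1
    · subst hab
      rw [if_pos rfl, Finsupp.single_eq_same]
    · rw [if_neg hab, if_neg ha, Nat.zero_sub]
  · have h0 : mk d ρ k b.1 = 0 := by
      cases k with
      | none => rw [mk_none, if_neg b.2]
      | some a =>
        rw [mk_some, if_neg, if_neg b.2]
        intro h'
        exact h (by rw [Subtype.ext h'])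
    rw [h0, Nat.cast_zero, mul_zero]

theorem c1_eq (hd : ∀ i, 1 ≤ d i) (hx : ∀ i, x ⟨i, ρ i⟩ = 1)
    (h2 : ∀ b : Fr ρ, ∑ m ∈ monsM n d, c m * dv x b.1 m = 0) {m : Var n →₀ ℕ}
    (hm : m ∈ monsM n d) (hmn : m ≠ mk d ρ none) :
    c1 d ρ (fun m => if m ∈ fe d ρ then c m else 0) x m = c m := by
  unfold c1
  by_cases h : ∃ b : Fr ρ, mk d ρ (some b) = m
  · rw [dif_pos h]
    have h4 := h2 h.choose
    rw [sum_fe d ρ hd] at h4
    have h5 : ∑ k, c (mk d ρ k) * dv x h.choose.1 (mk d ρ k) = c m := by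
      rw [Finset.sum_eq_single (some h.choose)]
      · rw [dv_mk d ρ hx, if_pos rfl, mul_one, h.choose_spec]
      · intro k _ hk
        rw [dv_mk d ρ hx, if_neg hk, mul_zero]
      · intro h'; exact absurd (Finset.mem_univ _) h'
    rw [h5] at h4
    have h6 : ∑ m' ∈ fe d ρ, (if m' ∈ fe d ρ then c m' else 0) * dv x h.choose.1 m' =
        ∑ m' ∈ fe d ρ, c m' * dv x h.choose.1 m' :=
      Finset.sum_congr rfl fun m' hm' => by rw [if_pos hm']
    rw [h6]
    exact neg_eq_of_add_eq_zero_right h4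
  · rw [dif_neg h]
    rcases mem_cases d ρ hm with h4 | h4 | h4
    · show (if m ∈ fe d ρ then c m else 0) = c m
      rw [if_pos h4]
    · exact absurd h4 hmn
    · exact absurd h4 h

theorem c2_eq (hd : ∀ i, 1 ≤ d i) (hx : ∀ i, x ⟨i, ρ i⟩ = 1)
    (h1 : ∑ m ∈ monsM n d, c m * mv x m = 0)
    (h2 : ∀ b : Fr ρ, ∑ m ∈ monsM n d, c m * dv x b.1 m = 0) {m : Var n →₀ ℕ}
    (hm : m ∈ monsM n d) :
    c2 d ρ (fun m => if m ∈ fe d ρ then c m else 0) x m = c m := by
  unfold c2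
  split_ifs with h
  · subst h
    have h3 : ∑ m' ∈ (monsM n d).erase (mk d ρ none),
        c1 d ρ (fun m => if m ∈ fe d ρ then c m else 0) x m' * mv x m' =
        ∑ m' ∈ (monsM n d).erase (mk d ρ none), c m' * mv x m' := by
      refine Finset.sum_congr rfl fun m' hm' => ?_
      rw [Finset.mem_erase] at hm'
      rw [c1_eq d ρ c hd hx h2 hm'.2 hm'.1]
    rw [h3]
    rw [← Finset.add_sum_erase _ _ hm, mv_one ρ hx (fun a ha => by rw [mk_none, if_neg ha]),
      mul_one] at h1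
    exact neg_eq_of_add_eq_zero_left h1
  · exact c1_eq d ρ c hd hx h2 hm h

/-- the parameters -/
abbrev TT : Type := {m // m ∈ fe d ρ} ⊕ Fr ρ

theorem card_TT (hd : ∀ i, 1 ≤ d i) :
    Fintype.card (TT d ρ) < Fintype.card {m // m ∈ monsM n d} := by
  rw [Fintype.card_sum, Fintype.card_coe, Fintype.card_coe]
  have h1 : (monsM n d).card = (fe d ρ).card + Fintype.card (Option (Fr ρ)) := by
    have := sum_fe (A := ℤ) d ρ hd (fun _ => 1)
    simp only [Finset.sum_const, smul_eq_mul, mul_one, Finset.card_univ, nsmul_eq_mul] at this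
    exact_mod_cast this
  rw [h1, Fintype.card_option]
  omega

/-- the parametrisation -/
noncomputable def ph : MvPolynomial {m // m ∈ monsM n d} ℚ →ₐ[ℚ] MvPolynomial (TT d ρ) ℚ :=
  aeval fun m => c2 d ρ (fun m => if h : m ∈ fe d ρ then X (Sum.inl ⟨m, h⟩) else 0)
    (fun a => if h : a.2 ≠ ρ a.1 then X (Sum.inr ⟨a, h⟩) else 1) m.1

theorem pt_ph {K : Type} [Field K] [CharZero K] (hd : ∀ i, 1 ≤ d i)
    (c : (Var n →₀ ℕ) → K) {x : Var n → K} (hx : ∀ i, x ⟨i, ρ i⟩ = 1)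
    (h1 : ∑ m ∈ monsM n d, c m * mv x m = 0)
    (h2 : ∀ b : Fr ρ, ∑ m ∈ monsM n d, c m * dv x b.1 m = 0)
    {D : MvPolynomial {m // m ∈ monsM n d} ℚ} (hD : ph d ρ D = 0) :
    aeval (fun m : {m // m ∈ monsM n d} => c m.1) D = 0 := by
  set g : MvPolynomial (TT d ρ) ℚ →ₐ[ℚ] K :=
    aeval (Sum.elim (fun m => c m.1) (fun b => x b.1)) with hg
  have h3 : g (ph d ρ D) = 0 := by rw [hD, map_zero]
  rw [← h3]
  unfold ph
  rw [MvPolynomial.comp_aeval_apply]
  congr 2
  funext m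
  have h4 := map_c2 d ρ (g : MvPolynomial (TT d ρ) ℚ →+* K)
    (fun m => if h : m ∈ fe d ρ then X (Sum.inl ⟨m, h⟩) else 0)
    (fun a => if h : a.2 ≠ ρ a.1 then X (Sum.inr ⟨a, h⟩) else 1) m.1
  have h5 : (fun m => (g : MvPolynomial (TT d ρ) ℚ →+* K)
      (if h : m ∈ fe d ρ then X (Sum.inl ⟨m, h⟩) else 0)) =
      fun m => if m ∈ fe d ρ then c m else 0 := by
    funext m
    by_cases h : m ∈ fe d ρ
    · rw [dif_pos h, if_pos h, hg]
      simp
    · rw [dif_neg h, if_neg h, map_zero]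
  have h6 : (fun a => (g : MvPolynomial (TT d ρ) ℚ →+* K)
      (if h : a.2 ≠ ρ a.1 then X (Sum.inr ⟨a, h⟩) else 1)) = x := by
    funext a
    by_cases h : a.2 ≠ ρ a.1
    · rw [dif_pos h, hg]
      simp
    · rw [dif_neg h, map_one]
      push Not at h
      have := hx a.1
      rw [← h] at this
      exact this.symm
  rw [h5, h6, c2_eq d ρ c hd hx h1 h2 m.2] at h4
  exact h4.symm

end

theorem dv_block {K : Type} [Field K] {d : Fin r → ℕ} (t : Fin r → K) (ht : ∀ i, t i ≠ 0)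
    (x : Var n → K) (b : Var n) {m : Var n →₀ ℕ} (hm : m ∈ monsM n d) :
    dv (fun a => t a.1 * x a) b m = ((∏ i, t i ^ d i) * (t b.1)⁻¹) * dv x b m := by
  unfold dv
  by_cases h : m b = 0
  · rw [h, Nat.cast_zero, mul_zero, mul_zero, mul_zero]
  · have h1 : mv (fun a : Var n => t a.1 * x a) (m - Finsupp.single b 1) =
        (∏ a : Var n, t a.1 ^ (m - Finsupp.single b 1 : Var n →₀ ℕ) a) *
          mv x (m - Finsupp.single b 1) := by
      unfold mv
      rw [← Finset.prod_mul_distrib]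
      exact Finset.prod_congr rfl fun a _ => mul_pow _ _ _
    have h2 : (∏ a : Var n, t a.1 ^ (m - Finsupp.single b 1 : Var n →₀ ℕ) a) * t b.1 =
        ∏ i, t i ^ d i := by
      have h3 : (m - Finsupp.single b 1) + Finsupp.single b 1 = m :=
        tsub_add_cancel_of_le (Finsupp.single_le_iff.2 (Nat.one_le_iff_ne_zero.2 h))
      have h4 : ∏ a : Var n, t a.1 ^ m a = ∏ i, t i ^ d i := by
        rw [Fintype.prod_sigma]
        refine Finset.prod_congr rfl fun i _ => ?_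
        rw [← mem_monsM.1 hm i, ← Finset.prod_pow_eq_pow_sum]
      rw [← h4]
      conv_rhs => rw [← h3]
      simp only [Finsupp.add_apply, pow_add, Finset.prod_mul_distrib]
      congr 1
      rw [Finset.prod_eq_single b]
      · rw [Finsupp.single_eq_same, pow_one]
      · intro a _ ha
        rw [Finsupp.single_apply, if_neg (Ne.symm ha), pow_zero]
      · intro h'; exact absurd (Finset.mem_univ _) h'
    rw [h1, ← h2]
    have h5 := ht b.1
    field_simp

theorem aeval_eq {K : Type} [Field K] {d : Fin r → ℕ} {f : MvPolynomial (Var n) ℤ}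
    (hf : ∀ s ∈ f.support, ∀ i : Fin r, ∑ j : Fin (n i + 1), s ⟨i, j⟩ = d i) (x : Var n → K) :
    aeval x f = ∑ m ∈ monsM n d, ((f.coeff m : ℤ) : K) * mv x m ∧
    ∀ a, aeval x (pderiv a f) = ∑ m ∈ monsM n d, ((f.coeff m : ℤ) : K) * dv x a m := by
  have h0 : f = ∑ m ∈ monsM n d, monomial m (f.coeff m) := by
    apply MvPolynomial.ext
    intro m
    rw [coeff_sum]
    simp only [coeff_monomial]
    rw [Finset.sum_ite_eq']
    split_ifs with h
    · rfl
    · by_contra h1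
      exact h (mem_monsM.2 (hf m (mem_support_iff.2 h1)))
  constructor
  · conv_lhs => rw [h0]
    rw [map_sum]
    exact Finset.sum_congr rfl fun m _ => aeval_mon x m _
  · intro a
    conv_lhs => rw [h0]
    rw [map_sum, map_sum]
    refine Finset.sum_congr rfl fun m _ => ?_
    rw [pderiv_monomial, aeval_mon]
    unfold dv
    push_cast
    ring

theorem exists_D {d : Fin r → ℕ} (hd : ∀ i, 1 ≤ d i) :
    ∃ D : MvPolynomial {m // m ∈ monsM n d} ℚ, D ≠ 0 ∧
    ∀ f : MvPolynomial (Var n) ℤ,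
      (∀ s ∈ f.support, ∀ i : Fin r, ∑ j : Fin (n i + 1), s ⟨i, j⟩ = d i) → ¬ SmoothM f →
      eval (fun v : {m // m ∈ monsM n d} => ((f.coeff v.1 : ℤ) : ℚ)) D = 0 := by
  have h0 : ∀ ρ : (∀ i, Fin (n i + 1)), ∃ D : MvPolynomial {m // m ∈ monsM n d} ℚ, D ≠ 0 ∧
      ph d ρ D = 0 := fun ρ => exists_ker (card_TT d ρ hd) (ph d ρ)
  choose D hD0 hD using h0
  refine ⟨∏ ρ, D ρ, Finset.prod_ne_zero_iff.2 fun p _ => hD0 p, ?_⟩
  intro f hf hns
  unfold SmoothM at hns
  push Not at hns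
  obtain ⟨K, _, _, z, hz, hE, hG⟩ := hns
  choose ρ hρ using hz
  rw [map_prod]
  refine Finset.prod_eq_zero (Finset.mem_univ ρ) ?_
  set t : Fin r → K := fun i => (z ⟨i, ρ i⟩)⁻¹ with ht
  have ht0 : ∀ i, t i ≠ 0 := fun i => inv_ne_zero (hρ i)
  have h1 := pt_ph d ρ hd (fun m => ((f.coeff m : ℤ) : K)) (x := fun a => t a.1 * z a)
    (fun i => inv_mul_cancel₀ (hρ i))
    (by
      rw [← (aeval_eq hf _).1, aeval_block f hf, hE, mul_zero])
    (fun b => by
      have h2 := hG b.1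
      rw [(aeval_eq hf _).2] at h2
      have h3 : ∀ m ∈ monsM n d, ((f.coeff m : ℤ) : K) * dv (fun a => t a.1 * z a) b.1 m =
          ((∏ i, t i ^ d i) * (t b.1.1)⁻¹) * (((f.coeff m : ℤ) : K) * dv z b.1 m) := by
        intro m hm
        rw [dv_block t ht0 z b.1 hm]
        ring
      rw [Finset.sum_congr rfl h3, ← Finset.mul_sum, h2, mul_zero]) (hD ρ)
  have h2 : (algebraMap ℚ K) (eval (fun v : {m // m ∈ monsM n d} =>
      ((f.coeff v.1 : ℤ) : ℚ)) (D ρ)) = 0 := by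
    rw [← h1]
    have h3 : (fun v : {m // m ∈ monsM n d} => ((f.coeff v.1 : ℤ) : K)) =
        fun v : {m // m ∈ monsM n d} => algebraMap ℚ K ((f.coeff v.1 : ℤ) : ℚ) := by
      funext v
      rw [eq_ratCast, Rat.cast_intCast]
    have h4 := MvPolynomial.aeval_algebraMap_apply (A := ℚ) (B := K)
      (fun v : {m // m ∈ monsM n d} => ((f.coeff v.1 : ℤ) : ℚ)) (D ρ)
    rw [h3]
    exact h4.symm
  exact (map_eq_zero (algebraMap ℚ K)).1 h2

theorem sz' {σ : Type} [Fintype σ] (D : MvPolynomial σ ℚ) (hD : D ≠ 0) : ∃ C : ℝ, 0 ≤ C ∧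
    ∀ (N : ℕ) (T : Finset (σ → ℤ)), (∀ c ∈ T, (∀ v, |c v| ≤ (N : ℤ)) ∧
      eval (fun v => ((c v : ℤ) : ℚ)) D = 0) →
      (T.card : ℝ) * (2 * N + 1) ≤ C * ((2 * N + 1 : ℕ) : ℝ) ^ Fintype.card σ := by
  obtain ⟨C, hC0, hC⟩ := sz D hD
  refine ⟨C, hC0, fun N T hT => le_trans ?_ (hC N)⟩
  apply mul_le_mul_of_nonneg_right _ (by positivity)
  rw [Nat.cast_le]
  apply Finset.card_le_card
  intro c hc
  rw [Finset.mem_filter, Fintype.mem_piFinset]
  obtain ⟨h1, h2⟩ := hT c hc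
  exact ⟨fun v => Finset.mem_Icc.2 (abs_le.1 (h1 v)), h2⟩

/-- **Almost all integral multihomogeneous forms are smooth.** -/
theorem smooth_denseM (d : Fin r → ℕ) (hd : ∀ i, 1 ≤ d i) :
    ∀ ε : ℝ, 0 < ε → ∃ H₀ : ℕ, ∀ H : ℕ, H₀ ≤ H →
    (((formsM n d (H : ℝ)).filter (fun f => ¬ SmoothM f)).card : ℝ) ≤
      ε * (formsM n d (H : ℝ)).card := by
  intro ε hε
  obtain ⟨D, hD0, hD⟩ := exists_D (n := n) hd
  obtain ⟨C, hC0, hC⟩ := sz' D hD0
  obtain ⟨H₀, hH₀⟩ := exists_nat_ge (C / ε)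
  refine ⟨max 1 H₀, fun H hH => ?_⟩
  have hH1 : 1 ≤ H := (le_max_left _ _).trans hH
  have hH2 : C / ε ≤ H := hH₀.trans (by exact_mod_cast (le_max_right _ _).trans hH)
  have h3 := hC H (((formsM n d (H : ℝ)).filter (fun f => ¬ SmoothM f)).image
    (fun f (v : {m // m ∈ monsM n d}) => f.coeff v.1)) (by
      intro c hc
      rw [Finset.mem_image] at hc
      obtain ⟨f, hf, rfl⟩ := hc
      rw [Finset.mem_filter, mem_formsM] at hf
      refine ⟨fun v => ?_, hD f hf.1.1 hf.2⟩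
      have h2 := hf.1.2 v.1
      exact_mod_cast h2)
  rw [Finset.card_image_of_injOn] at h3
  swap
  · intro f hf g hg hfg
    rw [Finset.mem_coe, Finset.mem_filter, mem_formsM] at hf hg
    apply MvPolynomial.ext
    intro m
    by_cases hm : m ∈ monsM n d
    · exact congrFun hfg ⟨m, hm⟩
    · rw [hf.1.coeff_eq_zero hm, hg.1.coeff_eq_zero hm]
  have h2 : ((formsM n d (H : ℝ)).card : ℝ) =
      ((2 * H + 1 : ℕ) : ℝ) ^ Fintype.card {m // m ∈ monsM n d} := by
    rw [card_formsM d (by positivity : (0 : ℝ) ≤ H), Nat.floor_natCast, Fintype.card_coe]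
    push_cast
    rfl
  rw [← h2] at h3
  have h5 : C ≤ ε * H := by
    rw [div_le_iff₀ hε] at hH2
    linarith
  have hHr : (0 : ℝ) < H := by exact_mod_cast hH1
  obtain ⟨N, hN⟩ : ∃ N : ℝ, N = ((formsM n d (H : ℝ)).card : ℝ) := ⟨_, rfl⟩
  obtain ⟨B, hB⟩ : ∃ B : ℝ, B =
    (((formsM n d (H : ℝ)).filter (fun f => ¬ SmoothM f)).card : ℝ) := ⟨_, rfl⟩
  have hN0 : 0 ≤ N := by rw [hN]; exact Nat.cast_nonneg _
  have hB0 : 0 ≤ B := by rw [hB]; exact Nat.cast_nonneg _
  rw [← hN, ← hB] at h3 ⊢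
  have h6 : B * H ≤ (ε * N) * H := by
    calc B * H ≤ B * (2 * H + 1) := by
          apply mul_le_mul_of_nonneg_left _ hB0
          linarith
      _ ≤ C * N := h3
      _ ≤ (ε * H) * N := by
          apply mul_le_mul_of_nonneg_right h5 hN0
      _ = _ := by ring
  exact le_of_mul_le_mul_right h6 hHr

end Pool.Agent.Q84.RM
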