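import Pool.Agent.Q84.RM.Pt
import Pool.Agent.Q84.RM.Smooth
import Pool.Agent.Y716.M.WAMain

/-!
# 100% of the everywhere locally soluble multihomogeneous forms have good rational points
-/

set_option autoImplicit false

namespace Pool.Agent.Q84.RM

open Pool.Agent.Y716.M Pool.Agent.Y362.MH MvPolynomial Filter
open Pool.Agent.Y77.M9 (solM_positive isM_iff_int)

/-- smooth, with a rational point at which for each block there is a derivative in the directions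
of this block which is not zero -/
def Nice {r : ℕ} {n : Fin r → ℕ} (f : MvPolynomial (Var n) ℤ) : Prop :=
  SmoothM f ∧ ∃ x : Var n → ℚ, (∀ i, x ⟨i, 0⟩ = 1) ∧ aeval x f = 0 ∧
    ∀ l, ∃ j, aeval x (pderiv ⟨l, j⟩ f) ≠ 0

open scoped Classical in
theorem bad_count {r : ℕ} (n d : Fin r → ℕ) (hr : 2 ≤ r) (hd : ∀ i, 2 ≤ d i)
    (hn : ∀ i, 1 ≤ n i) (hb : ∃ i, d i ≤ n i) {ε : ℝ} (hε : 0 < ε) : ∃ H₀ : ℕ, ∀ H : ℕ, H₀ ≤ H →
    (((formsM n d (H : ℝ)).filter (fun f => ElsB f ∧ ¬ Nice f)).card : ℝ) ≤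
      ε * (formsM n d (H : ℝ)).card := by
  obtain ⟨b, hb⟩ := hb
  have hcl : ClassStmtM n d := class_theoremM n d b hr hd hn ((hd b).trans hb) hb
  have hexc := Pool.Agent.Y448.M11.exc_target n d (by omega) hd hcl
  have hd1 : ∀ i, 1 ≤ d i := fun i => one_le_two.trans (hd i)
  obtain ⟨P, H₁, h1⟩ := count_good (by omega : 1 ≤ r) d hd1 hn (ε := ε / 3) (by positivity)
  obtain ⟨H₂, h2⟩ := Pool.Agent.Y455.WAM.wa_excM n d hexc (m := P + 1) (by omega) (ε := ε / 3)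
    (by positivity)
  obtain ⟨H₃, h3⟩ := smooth_denseM (n := n) d hd1 (ε / 3) (by positivity)
  refine ⟨max H₁ (max ⌈H₂⌉₊ H₃), fun H hH => ?_⟩
  have hA1 : H₁ ≤ H := (le_max_left _ _).trans hH
  have hA2 : H₂ ≤ (H : ℝ) := (Nat.le_ceil _).trans
    (by exact_mod_cast ((le_max_left _ _).trans (le_max_right _ _)).trans hH)
  have hA3 : H₃ ≤ H := ((le_max_right _ _).trans (le_max_right _ _)).trans hH
  have h1 := h1 H hA1
  have h2 := h2 H hA2
  have h3 := h3 H hA3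
  have hsub : (formsM n d (H : ℝ)).filter (fun f => ElsB f ∧ ¬ Nice f) ⊆
      (formsM n d (H : ℝ)).filter (fun f => ¬ GoodP d hn P f) ∪
      ((formsM n d (H : ℝ)).filter (fun f => ¬ WeakApproxM (P + 1) f) ∪
      (formsM n d (H : ℝ)).filter (fun f => ¬ SmoothM f)) := by
    intro f hf
    rw [Finset.mem_filter] at hf
    simp only [Finset.mem_union, Finset.mem_filter]
    by_contra hcon
    push Not at hcon
    obtain ⟨c1, c2, c3⟩ := hcon
    exact hf.2.2 ⟨c3 hf.1, good_point (by omega) hn (mem_formsM.1 hf.1).1 (Nat.le_succ P)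
      (c1 hf.1) (c2 hf.1) hf.2.1⟩
  have h4 := (Finset.card_le_card hsub).trans ((Finset.card_union_le _ _).trans
    (Nat.add_le_add_left (Finset.card_union_le _ _) _))
  have h5 : (((formsM n d (H : ℝ)).filter (fun f => ElsB f ∧ ¬ Nice f)).card : ℝ) ≤
      (((formsM n d (H : ℝ)).filter (fun f => ¬ GoodP d hn P f)).card : ℝ) +
      ((((formsM n d (H : ℝ)).filter (fun f => ¬ WeakApproxM (P + 1) f)).card : ℝ) +
      (((formsM n d (H : ℝ)).filter (fun f => ¬ SmoothM f)).card : ℝ)) := by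
    exact_mod_cast h4
  linarith

/-- **100% of the everywhere locally soluble forms are nice.** -/
theorem nice_ratio {r : ℕ} (n d : Fin r → ℕ) (hr : 2 ≤ r) (hd : ∀ i, 2 ≤ d i)
    (hn : ∀ i, 1 ≤ n i) (hb : ∃ i, d i ≤ n i) (G : MvPolynomial (Var n) ℤ → Prop)
    (hG : ∀ f : MvPolynomial (Var n) ℤ,
      (∀ s ∈ f.support, ∀ i : Fin r, ∑ j : Fin (n i + 1), s ⟨i, j⟩ = d i) → Nice f → G f) :
    Tendsto (fun H : ℕ =>
      (({f : MvPolynomial (Var n) ℤ | ((∀ s ∈ f.support, ∀ i : Fin r,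
          ∑ j : Fin (n i + 1), s ⟨i, j⟩ = d i) ∧ ∀ s, |f.coeff s| ≤ (H : ℤ)) ∧ ElsB f ∧
          G f} : Set _).ncard : ℝ) /
      (({f : MvPolynomial (Var n) ℤ | ((∀ s ∈ f.support, ∀ i : Fin r,
          ∑ j : Fin (n i + 1), s ⟨i, j⟩ = d i) ∧ ∀ s, |f.coeff s| ≤ (H : ℤ)) ∧ ElsB f} :
          Set _).ncard : ℝ)) atTop (nhds 1) := by
  classical
  have hcl : ClassStmtM n d := by
    obtain ⟨b, hb⟩ := hb
    exact class_theoremM n d b hr hd hn ((hd b).trans hb) hb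
  obtain ⟨c, hc0, H₁, hH₁⟩ := solM_positive (by omega : 1 ≤ r) hd hn hcl
  rw [Metric.tendsto_atTop]
  intro δ hδ
  obtain ⟨H₂, hH₂⟩ := bad_count n d hr hd hn hb (ε := δ / 2 * c) (by positivity)
  refine ⟨max ⌈H₁⌉₊ H₂, fun H hH => ?_⟩
  have h6 := hH₁ H ((Nat.le_ceil H₁).trans (by exact_mod_cast (le_max_left _ _).trans hH))
  have h7 := hH₂ H ((le_max_right _ _).trans hH)
  have hset1 : ({f : MvPolynomial (Var n) ℤ | ((∀ s ∈ f.support, ∀ i : Fin r,
          ∑ j : Fin (n i + 1), s ⟨i, j⟩ = d i) ∧ ∀ s, |f.coeff s| ≤ (H : ℤ)) ∧ ElsB f ∧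
          G f} : Set _).ncard =
      ((formsM n d (H : ℝ)).filter (fun f => ElsB f ∧ G f)).card := by
    rw [← Pool.Agent.Y455.WAM.ncard_eq_filter'']
    congr 1
    ext f
    simp only [Set.mem_ofPred_eq, isM_iff_int]
  have hset2 : ({f : MvPolynomial (Var n) ℤ | ((∀ s ∈ f.support, ∀ i : Fin r,
          ∑ j : Fin (n i + 1), s ⟨i, j⟩ = d i) ∧ ∀ s, |f.coeff s| ≤ (H : ℤ)) ∧ ElsB f} :
          Set _).ncard =
      ((formsM n d (H : ℝ)).filter (fun f => ElsB f)).card := by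
    rw [← Pool.Agent.Y455.WAM.ncard_eq_filter'']
    congr 1
    ext f
    simp only [Set.mem_ofPred_eq, isM_iff_int]
  rw [hset1, hset2]
  obtain ⟨Fo, hFo⟩ : ∃ Fo, Fo = formsM n d (H : ℝ) := ⟨_, rfl⟩
  have hmem : ∀ f ∈ Fo, IsM d (H : ℝ) f := by
    intro f hf
    rw [hFo] at hf
    exact mem_formsM.mp hf
  have hFo0 : (0:ℝ) < Fo.card := by
    rw [hFo]; exact_mod_cast Pool.Agent.Y77.M9.card_formsM_pos (n := n) d (Nat.cast_nonneg H)
  rw [← hFo] at h6 h7 ⊢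
  obtain ⟨a, ha⟩ : ∃ a : ℝ, a = ((Fo.filter (fun f => ElsB f ∧ G f)).card : ℝ) := ⟨_, rfl⟩
  obtain ⟨b, hb'⟩ : ∃ b : ℝ, b = ((Fo.filter (fun f => ElsB f)).card : ℝ) := ⟨_, rfl⟩
  have hab' : a ≤ b := by
    rw [ha, hb']
    have : Fo.filter (fun f => ElsB f ∧ G f) ⊆ Fo.filter (fun f => ElsB f) := by
      intro f hf
      rw [Finset.mem_filter] at hf ⊢
      exact ⟨hf.1, hf.2.1⟩
    exact_mod_cast Finset.card_le_card this
  have hcb : c * Fo.card ≤ b := by
    refine h6.trans ?_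
    rw [hb']
    have : Fo.filter (fun f => Pool.Agent.Y77.M9.SolM f) ⊆ Fo.filter (fun f => ElsB f) := by
      intro f hf
      rw [Finset.mem_filter] at hf ⊢
      exact ⟨hf.1, Pool.Agent.Y455.WAM.elsB_of_solM (hmem f hf.1) hf.2⟩
    exact_mod_cast Finset.card_le_card this
  have hba : b ≤ a + δ / 2 * c * Fo.card := by
    have h10 : (Fo.filter (fun f => ElsB f)) ⊆
        (Fo.filter (fun f => ElsB f ∧ G f)) ∪ (Fo.filter (fun f => ElsB f ∧ ¬ Nice f)) := by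
      intro f hf
      rw [Finset.mem_filter] at hf
      rw [Finset.mem_union, Finset.mem_filter, Finset.mem_filter]
      by_cases hw : Nice f
      · left; exact ⟨hf.1, hf.2, hG f (hmem f hf.1).1 hw⟩
      · right; exact ⟨hf.1, hf.2, hw⟩
    have h11 := (Finset.card_le_card h10).trans (Finset.card_union_le _ _)
    have h12 : b ≤ a + ((Fo.filter (fun f => ElsB f ∧ ¬ Nice f)).card : ℝ) := by
      rw [ha, hb']; exact_mod_cast h11
    linarith
  have hb0 : 0 < b := lt_of_lt_of_le (by positivity) hcb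
  rw [← ha, ← hb', Real.dist_eq]
  have h13 : a / b - 1 = -((b - a) / b) := by field_simp; ring
  rw [h13, abs_neg, abs_of_nonneg (div_nonneg (by linarith) hb0.le), div_lt_iff₀ hb0]
  have h14 : δ / 2 * c * Fo.card ≤ δ / 2 * b := by
    have := mul_le_mul_of_nonneg_left hcb (by positivity : 0 ≤ δ / 2)
    linarith
  have h15 : 0 < δ * b := by positivity
  linarith

end Pool.Agent.Q84.RM
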