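import Pool.Agent.Q84.RM.Count
import Pool.Agent.Y716.M.WADefs
import Pool.Agent.Y362.MH.Norm

/-!
# A rational point at which a derivative in the directions of each block is not zero
-/

set_option autoImplicit false

namespace Pool.Agent.Q84.RM

open Pool.Agent.Y716.M Pool.Agent.Y362.MH MvPolynomial

variable {r : ℕ} {n : Fin r → ℕ}

/-- the point `(1 : 0 : … : 0; 1 : 0 : … : 0; …)` -/
def xb (n : Fin r → ℕ) : Var n → ℤ := fun a => if a.2 = piv n a.1 then 1 else 0

theorem prod_xb (s : Var n →₀ ℕ) : ∏ a, xb n a ^ s a =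
    if ∀ a : Var n, a.2 ≠ piv n a.1 → s a = 0 then 1 else 0 := by
  classical
  split_ifs with h
  · apply Finset.prod_eq_one
    intro a _
    by_cases ha : a.2 = piv n a.1
    · simp [xb, ha]
    · rw [h a ha, pow_zero]
  · push Not at h
    obtain ⟨a, ha, hs⟩ := h
    apply Finset.prod_eq_zero (Finset.mem_univ a)
    rw [xb, if_neg ha, zero_pow hs]

theorem eq_mk_none {d : Fin r → ℕ} {s : Var n →₀ ℕ}
    (hs : ∀ i : Fin r, ∑ j : Fin (n i + 1), s ⟨i, j⟩ = d i)
    (h : ∀ a : Var n, a.2 ≠ piv n a.1 → s a = 0) : s = mk d (piv n) none := by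
  ext ⟨i, j⟩
  rw [mk_none]
  by_cases hj : j = piv n i
  · subst hj
    rw [if_pos rfl]
    show s ⟨i, piv n i⟩ = d i
    rw [← hs i, Finset.sum_eq_single (piv n i)]
    · intro j _ hj
      exact h ⟨i, j⟩ hj
    · intro h'; exact absurd (Finset.mem_univ _) h'
  · rw [if_neg hj]
    exact h ⟨i, j⟩ hj

theorem eq_mk_some {d : Fin r → ℕ} {s : Var n →₀ ℕ} (b : Fr (piv n))
    (hs : ∀ i : Fin r, ∑ j : Fin (n i + 1), s ⟨i, j⟩ = d i) (hb : s b.1 = 1)
    (h : ∀ a : Var n, a.2 ≠ piv n a.1 → a ≠ b.1 → s a = 0) : s = mk d (piv n) (some b) := by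
  classical
  obtain ⟨⟨l, k⟩, hk⟩ := b
  simp only at hb hk h
  ext ⟨i, j⟩
  rw [mk_some]
  simp only
  by_cases hj : j = piv n i
  · subst hj
    have hne : (⟨i, piv n i⟩ : Var n) ≠ ⟨l, k⟩ := by
      intro h1
      apply hk
      rw [Sigma.mk.injEq] at h1
      obtain ⟨h2, h3⟩ := h1
      subst h2
      exact (eq_of_heq h3).symm
    rw [if_neg hne, if_pos rfl]
    by_cases hi : i = l
    · subst hi
      rw [if_pos rfl]
      have h1 := hs i
      rw [← Finset.add_sum_erase _ _ (Finset.mem_univ (piv n i)),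
        ← Finset.add_sum_erase _ _ (Finset.mem_erase.2 ⟨hk, Finset.mem_univ k⟩), hb,
        Finset.sum_eq_zero] at h1
      · omega
      · intro j hj
        rw [Finset.mem_erase, Finset.mem_erase] at hj
        apply h ⟨i, j⟩ hj.2.1
        intro h2
        rw [Sigma.mk.injEq] at h2
        exact hj.1 (eq_of_heq h2.2)
    · rw [if_neg hi, ← hs i, Finset.sum_eq_single (piv n i)]
      · intro j _ hj
        apply h ⟨i, j⟩ hj
        intro h2
        rw [Sigma.mk.injEq] at h2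
        exact hi h2.1
      · intro h'; exact absurd (Finset.mem_univ _) h'
  · by_cases hb' : (⟨i, j⟩ : Var n) = ⟨l, k⟩
    · rw [if_pos hb', hb', hb]
    · rw [if_neg hb', if_neg hj]
      exact h ⟨i, j⟩ hj hb'

variable {d : Fin r → ℕ} {f : MvPolynomial (Var n) ℤ}

theorem eval_xb (hf : ∀ s ∈ f.support, ∀ i : Fin r, ∑ j : Fin (n i + 1), s ⟨i, j⟩ = d i) :
    eval (xb n) f = f.coeff (mk d (piv n) none) := by
  classical
  rw [eval_eq']
  by_cases hm : mk d (piv n) none ∈ f.support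
  · rw [Finset.sum_eq_single_of_mem _ hm]
    · rw [prod_xb, if_pos, mul_one]
      intro a ha
      rw [mk_none, if_neg ha]
    · intro s hs hne
      rw [prod_xb, if_neg, mul_zero]
      intro h
      exact hne (eq_mk_none (hf s hs) h)
  · rw [notMem_support_iff.1 hm]
    apply Finset.sum_eq_zero
    intro s hs
    rw [prod_xb, if_neg, mul_zero]
    intro h
    apply hm
    rw [← eq_mk_none (hf s hs) h]
    exact hs

theorem eval_pd (hf : ∀ s ∈ f.support, ∀ i : Fin r, ∑ j : Fin (n i + 1), s ⟨i, j⟩ = d i)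
    (b : Fr (piv n)) :
    eval (xb n) (pderiv b.1 f) = f.coeff (mk d (piv n) (some b)) := by
  classical
  conv_lhs => rw [f.as_sum]
  rw [map_sum, map_sum]
  have h1 : ∀ s ∈ f.support, eval (xb n) (pderiv b.1 (monomial s (f.coeff s))) =
      if s = mk d (piv n) (some b) then f.coeff s else 0 := by
    intro s hs
    rw [pderiv_monomial, eval_monomial, Finsupp.prod_fintype _ _ (fun i => pow_zero _), prod_xb]
    split_ifs with h2 h3 h3
    · rw [h3, mk_some, if_pos rfl]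
      simp
    · have h4 : s b.1 ≠ 1 := by
        intro h4
        apply h3
        apply eq_mk_some b (hf s hs) h4
        intro a ha hab
        have := h2 a ha
        rw [Finsupp.tsub_apply, Finsupp.single_apply, if_neg (Ne.symm hab), Nat.sub_zero] at this
        exact this
      have h5 := h2 b.1 b.2
      rw [Finsupp.tsub_apply, Finsupp.single_eq_same] at h5
      have h6 : s b.1 = 0 := by omega
      rw [h6]
      simp
    · exfalso
      apply h2
      intro a ha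
      rw [Finsupp.tsub_apply, h3, mk_some]
      by_cases hab : a = b.1
      · subst hab
        rw [if_pos rfl, Finsupp.single_eq_same]
      · rw [if_neg hab, if_neg ha, Nat.zero_sub]
    · rw [mul_zero]
  rw [Finset.sum_congr rfl h1, Finset.sum_ite_eq']
  split_ifs with h2
  · rfl
  · exact (notMem_support_iff.1 h2).symm

/-- chain rule for the substitution of a single variable -/
theorem derivative_line {σ : Type*} [DecidableEq σ] (x : σ → ℤ) (b : σ) (f : MvPolynomial σ ℤ) :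
    Polynomial.derivative (aeval (fun a => if a = b then Polynomial.X
      else (Polynomial.C (x a) : Polynomial ℤ)) f) =
    aeval (fun a => if a = b then Polynomial.X else (Polynomial.C (x a) : Polynomial ℤ))
      (pderiv b f) := by
  induction f using MvPolynomial.induction_on with
  | C a => simp
  | add p q hp hq => rw [map_add, map_add, hp, hq, map_add, map_add]
  | mul_X p a hp =>
    rw [map_mul, Polynomial.derivative_mul, hp, aeval_X, Derivation.leibniz, map_add, smul_eq_mul,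
      smul_eq_mul, map_mul, map_mul, aeval_X, pderiv_X]
    by_cases h : a = b
    · subst h
      simp [add_comm, mul_comm]
    · rw [if_neg h]
      simp [Ne.symm h, mul_comm]

/-- the `p`-adic point -/
theorem padic_pt {p : ℕ} [hp : Fact p.Prime]
    (hf : ∀ s ∈ f.support, ∀ i : Fin r, ∑ j : Fin (n i + 1), s ⟨i, j⟩ = d i)
    (b : Fr (piv n)) (hA : (p : ℤ) ∣ f.coeff (mk d (piv n) none))
    (hB : ¬ (p : ℤ) ∣ f.coeff (mk d (piv n) (some b))) :
    ∃ z : Var n → ℚ_[p], aeval z f = 0 ∧ ∀ i, z ⟨i, 0⟩ = 1 ∧ ∀ j, j ≠ 0 → ‖z ⟨i, j⟩‖ < 1 := by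
  classical
  set u : Var n → Polynomial ℤ := fun a => if a = b.1 then Polynomial.X
    else (Polynomial.C (xb n a)) with hu
  set g : Polynomial ℤ := aeval u f with hg
  have hev : ∀ (t : ℤ_[p]) (h : MvPolynomial (Var n) ℤ), Polynomial.aeval t (aeval u h) =
      aeval (fun a => if a = b.1 then t else ((xb n a : ℤ) : ℤ_[p])) h := by
    intro t h
    rw [MvPolynomial.comp_aeval_apply]
    congr 2
    funext a
    by_cases h1 : a = b.1
    · simp only [hu, if_pos h1, Polynomial.aeval_X]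
    · simp only [hu, if_neg h1, Polynomial.aeval_C]
      simp
  have hxb : xb n b.1 = 0 := by
    rw [xb, if_neg b.2]
  have h0 : (fun a => if a = b.1 then (0 : ℤ_[p]) else ((xb n a : ℤ) : ℤ_[p])) =
      fun a => ((xb n a : ℤ) : ℤ_[p]) := by
    funext a
    split_ifs with h
    · rw [h, hxb, Int.cast_zero]
    · rfl
  have h1 : Polynomial.aeval (0 : ℤ_[p]) g = ((f.coeff (mk d (piv n) none) : ℤ) : ℤ_[p]) := by
    rw [hg, hev, h0, aeval_castZ, eval_xb hf]
  have h2 : Polynomial.aeval (0 : ℤ_[p]) (Polynomial.derivative g) =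
      ((f.coeff (mk d (piv n) (some b)) : ℤ) : ℤ_[p]) := by
    rw [hg, hu, derivative_line, ← hu, hev, h0, aeval_castZ, eval_pd hf]
  have h3 : ‖Polynomial.aeval (0 : ℤ_[p]) g‖ < 1 := by
    rw [h1, PadicInt.norm_int_lt_one_iff_dvd]
    exact hA
  have h4 : ‖Polynomial.aeval (0 : ℤ_[p]) (Polynomial.derivative g)‖ = 1 := by
    rw [h2]
    apply le_antisymm (PadicInt.norm_le_one _)
    by_contra hlt
    push Not at hlt
    rw [PadicInt.norm_int_lt_one_iff_dvd] at hlt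
    exact hB hlt
  obtain ⟨t, ht1, ht2, -, -⟩ := hensels_lemma (F := g) (a := (0 : ℤ_[p]))
    (by rw [h4, one_pow]; exact h3)
  rw [h4, sub_zero] at ht2
  rw [hg, hev] at ht1
  refine ⟨fun a => ((if a = b.1 then t else ((xb n a : ℤ) : ℤ_[p]) : ℤ_[p]) : ℚ_[p]), ?_, ?_⟩
  · have h5 := congrArg (algebraMap ℤ_[p] ℚ_[p]) ht1
    rw [map_zero, aeval_def, hom_eval₂] at h5
    rw [aeval_def, ← h5]
    congr 1
  · intro i
    refine ⟨?_, fun j hj => ?_⟩
    · have hne : (⟨i, 0⟩ : Var n) ≠ b.1 := by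
        intro h5
        apply b.2
        rw [← h5]
        rfl
      show ((if (⟨i, 0⟩ : Var n) = b.1 then t else ((xb n ⟨i, 0⟩ : ℤ) : ℤ_[p]) : ℤ_[p]) : ℚ_[p]) = 1
      rw [if_neg hne]
      simp [xb, piv]
    · show ‖((if (⟨i, j⟩ : Var n) = b.1 then t else ((xb n ⟨i, j⟩ : ℤ) : ℤ_[p]) : ℤ_[p]) :
        ℚ_[p])‖ < 1
      by_cases hb : (⟨i, j⟩ : Var n) = b.1
      · rw [if_pos hb]
        exact ht2
      · rw [if_neg hb]
        have : xb n ⟨i, j⟩ = 0 := by
          rw [xb, if_neg]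
          exact hj
        rw [this]
        simp

/-- **A good rational point.** -/
theorem good_point (hr : 1 ≤ r) (hn : ∀ i, 1 ≤ n i)
    (hf : ∀ s ∈ f.support, ∀ i : Fin r, ∑ j : Fin (n i + 1), s ⟨i, j⟩ = d i) {P m : ℕ}
    (hP : P ≤ m) (hg : GoodP d hn P f) (hw : WeakApproxM m f) (hels : ElsB f) :
    ∃ x : Var n → ℚ, (∀ i, x ⟨i, 0⟩ = 1) ∧ aeval x f = 0 ∧
      ∀ l, ∃ j, aeval x (pderiv ⟨l, j⟩ f) ≠ 0 := by
  classical
  obtain ⟨p, hp, hpP, hA, hB⟩ := hg
  have : Fact p.Prime := ⟨hp⟩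
  have key : ∀ (q : ℕ) [Fact q.Prime], ∃ zq : Var n → ℚ_[q], (∀ i, bl zq i ≠ 0) ∧
      aeval zq f = 0 ∧ (q = p → ∀ i, zq ⟨i, 0⟩ = 1 ∧ ∀ j, j ≠ 0 → ‖zq ⟨i, j⟩‖ < 1) := by
    intro q hq
    by_cases hqp : q = p
    · subst hqp
      obtain ⟨z, hz1, hz2⟩ := padic_pt hf (fv hn ⟨0, hr⟩) hA (hB _)
      refine ⟨z, fun i h => ?_, hz1, fun _ => hz2⟩
      have := congrFun h 0
      rw [bl, (hz2 i).1] at this
      exact one_ne_zero this
    · obtain ⟨z, hz1, hz2⟩ := hels.2 q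
      exact ⟨z, hz1, hz2, fun h => absurd h hqp⟩
  choose z hz1 hz2 hz3 using key
  obtain ⟨y, hy1, hy2⟩ := hels.1
  obtain ⟨x, hx1, hx2, hx3, -⟩ := hw z y (fun q _ => ⟨hz1 q, hz2 q⟩) hy1 hy2
  have hz := hz3 p rfl
  have hm2 : 2 ≤ m := hp.two_le.trans (hpP.trans hP)
  have hnb : ∀ i, ‖bl (z p) i‖ ≤ 1 := by
    intro i
    rw [pi_norm_le_iff_of_nonneg zero_le_one]
    intro j
    by_cases hj : j = 0
    · subst hj
      rw [bl, (hz i).1, norm_one]
    · exact ((hz i).2 j hj).le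
  have hap : ∀ i, ∃ c : ℚ_[p], c ≠ 0 ∧ ∀ j, ‖z p ⟨i, j⟩ - c * (x ⟨i, j⟩ : ℚ_[p])‖ < 1 := by
    intro i
    obtain ⟨c, hc, h⟩ := hx3 p (hpP.trans hP) i
    refine ⟨c, hc, fun j => (h j).trans_lt ?_⟩
    rw [div_lt_one (by positivity)]
    refine (hnb i).trans_lt ?_
    exact_mod_cast hm2
  choose c hc hcx using hap
  have hc1 : ∀ i, ‖c i * (x ⟨i, 0⟩ : ℚ_[p])‖ = 1 := by
    intro i
    have h1 := hcx i 0
    rw [(hz i).1] at h1
    have h2 : c i * (x ⟨i, 0⟩ : ℚ_[p]) = 1 - (1 - c i * (x ⟨i, 0⟩ : ℚ_[p])) := by ring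
    rw [h2, sub_eq_add_neg, Padic.add_eq_max_of_ne]
    · rw [norm_one, norm_neg, max_eq_left h1.le]
    · rw [norm_one, norm_neg]
      exact h1.ne'
  have hc2 : ∀ i j, j ≠ 0 → ‖c i * (x ⟨i, j⟩ : ℚ_[p])‖ < 1 := by
    intro i j hj
    have h1 := hcx i j
    have h2 : c i * (x ⟨i, j⟩ : ℚ_[p]) = z p ⟨i, j⟩ - (z p ⟨i, j⟩ - c i * (x ⟨i, j⟩ : ℚ_[p])) := by
      ring
    rw [h2, sub_eq_add_neg]
    refine (Padic.nonarchimedean _ _).trans_lt ?_
    rw [norm_neg]
    exact max_lt ((hz i).2 j hj) h1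
  have hx0 : ∀ i, x ⟨i, 0⟩ ≠ 0 := by
    intro i h
    have := hc1 i
    rw [h] at this
    simp at this
  -- the normalised point
  set x' : Var n → ℚ := fun a => (x ⟨a.1, 0⟩)⁻¹ * x a with hx'
  have hx'1 : ∀ i, x' ⟨i, 0⟩ = 1 := fun i => inv_mul_cancel₀ (hx0 i)
  have hx'n : ∀ i j, j ≠ 0 → ‖((x' ⟨i, j⟩ : ℚ) : ℚ_[p])‖ < 1 := by
    intro i j hj
    have h1 : ((x' ⟨i, j⟩ : ℚ) : ℚ_[p]) =
        (c i * (x ⟨i, 0⟩ : ℚ_[p]))⁻¹ * (c i * (x ⟨i, j⟩ : ℚ_[p])) := by
      have h2 : (x ⟨i, 0⟩ : ℚ_[p]) ≠ 0 := by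
        exact_mod_cast hx0 i
      have h3 := hc i
      simp only [hx']
      push_cast
      field_simp
    rw [h1, norm_mul, norm_inv, hc1, inv_one, one_mul]
    exact hc2 i j hj
  have hlift : ∀ a : Var n, ∃ y : ℤ_[p], (y : ℚ_[p]) = ((x' a : ℚ) : ℚ_[p]) ∧
      PadicInt.toZMod y = ((xb n a : ℤ) : ZMod p) := by
    rintro ⟨i, j⟩
    by_cases hj : j = 0
    · subst hj
      refine ⟨1, ?_, ?_⟩
      · rw [hx'1]; simp
      · simp [xb, piv]
    · refine ⟨⟨((x' ⟨i, j⟩ : ℚ) : ℚ_[p]), (hx'n i j hj).le⟩, rfl, ?_⟩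
      have h1 : xb n ⟨i, j⟩ = 0 := by
        rw [xb, if_neg]
        exact hj
      rw [h1, Int.cast_zero]
      rw [← RingHom.mem_ker, PadicInt.ker_toZMod, IsLocalRing.mem_maximalIdeal,
        PadicInt.mem_nonunits]
      exact hx'n i j hj
  choose Y hY1 hY2 using hlift
  refine ⟨x', hx'1, ?_, fun l => ⟨Fin.last (n l), fun h0 => ?_⟩⟩
  · have h1 := aeval_block f hf (fun i => (x ⟨i, 0⟩)⁻¹) x
    rw [hx2, mul_zero] at h1
    exact h1
  · apply hB l
    have h1 : aeval Y (pderiv (fv hn l).1 f) = 0 := by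
      have h2 : (algebraMap ℤ_[p] ℚ_[p]) (aeval Y (pderiv (fv hn l).1 f)) =
          algebraMap ℚ ℚ_[p] (aeval x' (pderiv (fv hn l).1 f)) := by
        rw [aeval_def, aeval_def, hom_eval₂, hom_eval₂]
        have h3 : ((algebraMap ℤ_[p] ℚ_[p]).comp (algebraMap ℤ ℤ_[p])) =
            (algebraMap ℚ ℚ_[p]).comp (algebraMap ℤ ℚ) := RingHom.ext_int _ _
        rw [h3]
        congr 1
        funext a
        rw [eq_ratCast]
        exact hY1 a
      have h3 : aeval x' (pderiv (fv hn l).1 f) = 0 := h0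
      rw [h3, map_zero] at h2
      have hinj : Function.Injective (algebraMap ℤ_[p] ℚ_[p]) :=
        FaithfulSMul.algebraMap_injective _ _
      exact (map_eq_zero_iff _ hinj).mp h2
    have h2 := congrArg (PadicInt.toZMod (p := p)) h1
    rw [map_zero, aeval_def, hom_eval₂] at h2
    have h3 : (fun a => PadicInt.toZMod (Y a)) = fun a => ((xb n a : ℤ) : ZMod p) := funext hY2
    have h4 : ((PadicInt.toZMod (p := p)).comp (algebraMap ℤ ℤ_[p])) =
        algebraMap ℤ (ZMod p) := RingHom.ext_int _ _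
    have h5 : (⇑(PadicInt.toZMod (p := p)) ∘ Y) = fun a => ((xb n a : ℤ) : ZMod p) := funext hY2
    rw [h4] at h2
    have h6 : aeval (fun a => ((xb n a : ℤ) : ZMod p)) (pderiv (fv hn l).1 f) = 0 := by
      rw [aeval_def, ← h2]
      congr 1
      exact h5.symm
    rw [aeval_castZ, eval_pd hf, ZMod.intCast_zmod_eq_zero_iff_dvd] at h6
    exact_mod_cast h6

end Pool.Agent.Q84.RM
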