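import Pool.Agent.TH178.HI.MultiHP
import Pool.Agent.W560.HP.Fin2
import Pool.Agent.W376.HP.NRM

/-!
# Double covers of `ℙⁿ × ℙ¹` branched along smooth divisors of bidegree `(2, 2)`
-/

set_option autoImplicit false

namespace Pool.Agent.Q84.RM.Tw

open MvPolynomial AlgebraicGeometry CategoryTheory W560.HP Pool.Agent.TH178.HI Pool.Agent.TH178.MZ

/-- the dimensions of the two factors -/
def dm (n : ℕ) : Fin 2 → ℕ
  | 0 => n
  | 1 => 1

/-- coordinates of a point of `ℙⁿ × ℙ¹` -/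
def uu {n : ℕ} {K : Type} (x : Fin (n + 1) → K) (y : Fin 2 → K) : Idx (dm n) → K
  | ⟨0, j⟩ => x j
  | ⟨1, j⟩ => y j

/-- the coordinates of the first factor -/
def i0 {n : ℕ} (j : Fin (n + 1)) : Idx (dm n) := ⟨0, j⟩

/-- the coordinates of the second factor -/
def i1 {n : ℕ} (j : Fin 2) : Idx (dm n) := ⟨1, j⟩

theorem uu_i0 {n : ℕ} {K : Type} (x : Fin (n + 1) → K) (y : Fin 2 → K) (j : Fin (n + 1)) :
    uu x y (i0 j) = x j := rfl

theorem uu_i1 {n : ℕ} {K : Type} (x : Fin (n + 1) → K) (y : Fin 2 → K) (j : Fin 2) :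
    uu x y (i1 j) = y j := rfl

theorem i0_inj {n : ℕ} : Function.Injective (i0 (n := n)) := by
  intro j j' h
  unfold i0 at h
  rw [Sigma.mk.injEq] at h
  exact eq_of_heq h.2

theorem i0_ne_i1 {n : ℕ} (j : Fin (n + 1)) (j' : Fin 2) : i0 j ≠ i1 j' := by
  intro h
  unfold i0 i1 at h
  rw [Sigma.mk.injEq] at h
  exact absurd h.1 (by decide)

theorem i1_inj {n : ℕ} : Function.Injective (i1 (n := n)) := by
  intro j j' h
  unfold i1 at h
  rw [Sigma.mk.injEq] at h
  exact eq_of_heq h.2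

/-- multihomogeneous of degrees `e` -/
def MD {n : ℕ} (e : Fin 2 → ℕ) (F : MvPolynomial (Idx (dm n)) ℚ) : Prop :=
  ∀ d ∈ F.support, ∀ k : Fin 2, ∑ j : Fin (dm n k + 1), d ⟨k, j⟩ = e k

variable {n : ℕ}

theorem MD.add {e : Fin 2 → ℕ} {F G : MvPolynomial (Idx (dm n)) ℚ} (hF : MD e F) (hG : MD e G) :
    MD e (F + G) := by
  intro d hd
  rcases Finset.mem_union.1 (support_add hd) with h | h
  · exact hF d h
  · exact hG d h

theorem MD.mul {e e' : Fin 2 → ℕ} {F G : MvPolynomial (Idx (dm n)) ℚ} (hF : MD e F)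
    (hG : MD e' G) : MD (fun k => e k + e' k) (F * G) := by
  intro d hd k
  obtain ⟨a, ha, b, hb, rfl⟩ := Finset.mem_add.1 (support_mul F G hd)
  simp only [Finsupp.add_apply]
  rw [Finset.sum_add_distrib, hF a ha k, hG b hb k]

theorem MD.C_mul {e : Fin 2 → ℕ} {F : MvPolynomial (Idx (dm n)) ℚ} (c : ℚ) (hF : MD e F) :
    MD e (C c * F) := by
  intro d hd
  refine hF d ?_
  rw [mem_support_iff] at hd ⊢
  intro h
  apply hd
  rw [coeff_C_mul, h, mul_zero]

theorem MD.X1 (j : Fin 2) : MD (fun k => if k = 1 then 1 else 0)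
    (X (i1 (n := n) j) : MvPolynomial (Idx (dm n)) ℚ) := by
  classical
  intro d hd k
  rw [support_X, Finset.mem_singleton] at hd
  subst hd
  beta_reduce
  by_cases hk : k = 1
  · subst hk
    rw [if_pos rfl]
    refine (Finset.sum_eq_single (j : Fin (dm n 1 + 1)) ?_ ?_).trans ?_
    · intro j' _ hj
      rw [Finsupp.single_apply, if_neg]
      intro h
      exact hj (i1_inj h).symm
    · intro h; exact absurd (Finset.mem_univ _) h
    · exact Finsupp.single_eq_same
  · rw [if_neg hk]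
    apply Finset.sum_eq_zero
    intro j' _
    rw [Finsupp.single_apply, if_neg]
    intro h
    unfold i1 at h
    rw [Sigma.mk.injEq] at h
    exact hk h.1.symm

theorem MD.ren {A : MvPolynomial (Fin (n + 1)) ℤ} (hA : A.IsHomogeneous 2) :
    MD (fun k => if k = 1 then 0 else 2) (rename i0 (map (Int.castRingHom ℚ) A)) := by
  classical
  intro d hd k
  rw [mem_support_iff] at hd
  obtain ⟨u, hu1, hu2⟩ := coeff_rename_ne_zero _ _ _ hd
  rw [coeff_map] at hu2
  have hu3 : A.coeff u ≠ 0 := fun h => hu2 (by rw [h, map_zero])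
  have h1 : ∑ j, u j = 2 := by
    have := hA hu3
    simpa [Finsupp.weight_apply, Finsupp.sum_fintype] using this
  subst hu1
  beta_reduce
  by_cases hk : k = 1
  · subst hk
    rw [if_pos rfl]
    apply Finset.sum_eq_zero
    intro j _
    apply Finsupp.mapDomain_of_notMem_range
    rintro ⟨j', hj'⟩
    exact i0_ne_i1 j' j hj'
  · have hk0 : k = 0 := by omega
    subst hk0
    rw [if_neg hk]
    refine Eq.trans ?_ h1
    show ∑ j : Fin (n + 1), (Finsupp.mapDomain i0 u) (i0 j) = ∑ j, u j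
    exact Finset.sum_congr rfl fun j _ => Finsupp.mapDomain_apply i0_inj u j

/-- the form `a (A u² + B u v + D v²)` -/
noncomputable def FF (A B D : MvPolynomial (Fin (n + 1)) ℤ) (a : ℤ) :
    MvPolynomial (Idx (dm n)) ℚ :=
  C (a : ℚ) * (rename i0 (map (Int.castRingHom ℚ) A) * (X (i1 0) * X (i1 0)) +
    rename i0 (map (Int.castRingHom ℚ) B) * (X (i1 0) * X (i1 1)) +
    rename i0 (map (Int.castRingHom ℚ) D) * (X (i1 1) * X (i1 1)))

theorem FF_multi {A B D : MvPolynomial (Fin (n + 1)) ℤ} (hA : A.IsHomogeneous 2)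
    (hB : B.IsHomogeneous 2) (hD : D.IsHomogeneous 2) (a : ℤ) : IsMultiQuadratic (FF A B D a) := by
  have h : MD (n := n) (fun _ => 2) (FF A B D a) := by
    have hx : ∀ (E : MvPolynomial (Fin (n + 1)) ℤ), E.IsHomogeneous 2 → ∀ j j' : Fin 2,
        MD (n := n) (fun _ => 2) (rename i0 (map (Int.castRingHom ℚ) E) * (X (i1 j) * X (i1 j'))) := by
      intro E hE j j'
      have h1 := (MD.ren hE).mul ((MD.X1 (n := n) j).mul (MD.X1 (n := n) j'))
      intro d hd k
      rw [h1 d hd k]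
      by_cases hk : k = 1
      · simp [hk]
      · simp [hk]
    unfold FF
    exact MD.C_mul _ (((hx A hA 0 0).add (hx B hB 0 1)).add (hx D hD 1 1))
  exact h

/-- the value of `A u² + B u v + D v²` -/
noncomputable def value (A B D : MvPolynomial (Fin (n + 1)) ℤ) {K : Type} [Field K]
    (x : Fin (n + 1) → K) (u v : K) : K :=
  aeval x A * u ^ 2 + aeval x B * (u * v) + aeval x D * v ^ 2

theorem aeval_ren (A : MvPolynomial (Fin (n + 1)) ℤ) {K : Type} [Field K] [Algebra ℚ K]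
    (x : Fin (n + 1) → K) (y : Fin 2 → K) :
    aeval (uu x y) (rename i0 (map (Int.castRingHom ℚ) A)) = aeval x A := by
  rw [aeval_rename]
  have h1 : uu x y ∘ i0 = x := rfl
  rw [h1]
  exact aeval_map_algebraMap ℚ x A

theorem aeval_FF (A B D : MvPolynomial (Fin (n + 1)) ℤ) (a : ℤ) {K : Type} [Field K] [Algebra ℚ K]
    (x : Fin (n + 1) → K) (y : Fin 2 → K) :
    aeval (uu x y) (FF A B D a) = (a : K) * value A B D x (y 0) (y 1) := by
  unfold FF value
  rw [map_mul, map_add, map_add, map_mul, map_mul, map_mul, map_mul, map_mul, map_mul, aeval_ren,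
    aeval_ren, aeval_ren, aeval_X, aeval_X, uu_i1, uu_i1, aeval_C, eq_ratCast, Rat.cast_intCast]
  ring

theorem eval_FF (A B D : MvPolynomial (Fin (n + 1)) ℤ) (a : ℤ) (x : Fin (n + 1) → ℚ)
    (y : Fin 2 → ℚ) : eval (uu x y) (FF A B D a) = (a : ℚ) * value A B D x (y 0) (y 1) := by
  rw [← aeval_FF, ← coe_aeval_eq_eval]
  rfl

theorem pd_ren0 (A : MvPolynomial (Fin (n + 1)) ℤ) (j : Fin (n + 1)) :
    pderiv (i0 j) (rename i0 (map (Int.castRingHom ℚ) A)) =
      rename i0 (map (Int.castRingHom ℚ) (pderiv j A)) := by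
  rw [pderiv_rename i0_inj, pderiv_map]

theorem pd_ren1 (A : MvPolynomial (Fin (n + 1)) ℤ) (j : Fin 2) :
    pderiv (i1 (n := n) j) (rename i0 (map (Int.castRingHom ℚ) A)) = 0 := by
  apply pderiv_eq_zero_of_notMem_vars
  intro h
  obtain ⟨j', _, hj'⟩ := Finset.mem_image.1 (vars_rename _ _ h)
  exact i0_ne_i1 _ _ hj'

theorem eval_pd0 (A B D : MvPolynomial (Fin (n + 1)) ℤ) (a : ℤ) (x : Fin (n + 1) → ℚ)
    (y : Fin 2 → ℚ) (j : Fin (n + 1)) : eval (uu x y) (pderiv (i0 j) (FF A B D a)) =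
      (a : ℚ) * value (pderiv j A) (pderiv j B) (pderiv j D) x (y 0) (y 1) := by
  rw [← eval_FF]
  congr 1
  unfold FF
  have h1 : ∀ l : Fin 2, pderiv (i0 (n := n) j) (X (i1 l) : MvPolynomial (Idx (dm n)) ℚ) = 0 :=
    fun l => pderiv_X_of_ne (i0_ne_i1 j l).symm
  simp only [Derivation.leibniz, map_add, pderiv_C, h1, pd_ren0, add_zero, smul_eq_mul,
    zero_add, mul_zero]
  ring

theorem eval_pd1 (A B D : MvPolynomial (Fin (n + 1)) ℤ) (a : ℤ) (x : Fin (n + 1) → ℚ)
    (y : Fin 2 → ℚ) :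
    eval (uu x y) (pderiv (i1 0) (FF A B D a)) =
      (a : ℚ) * (2 * aeval x A * y 0 + aeval x B * y 1) ∧
    eval (uu x y) (pderiv (i1 1) (FF A B D a)) =
      (a : ℚ) * (aeval x B * y 0 + 2 * aeval x D * y 1) := by
  have h01 : pderiv (i1 (n := n) 0) (X (i1 1) : MvPolynomial (Idx (dm n)) ℚ) = 0 :=
    pderiv_X_of_ne (fun h => absurd (i1_inj h) (by decide))
  have h10 : pderiv (i1 (n := n) 1) (X (i1 0) : MvPolynomial (Idx (dm n)) ℚ) = 0 :=
    pderiv_X_of_ne (fun h => absurd (i1_inj h) (by decide))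
  have hr : ∀ E : MvPolynomial (Fin (n + 1)) ℤ,
      eval (uu x y) (rename i0 (map (Int.castRingHom ℚ) E)) = aeval x E := by
    intro E
    rw [← aeval_ren E x y, ← coe_aeval_eq_eval]
    rfl
  unfold FF
  constructor
  · simp only [Derivation.leibniz, map_add, pderiv_C, h01, pderiv_X_self, pd_ren1, smul_zero,
      add_zero, smul_eq_mul, mul_one, map_mul, eval_C, hr, eval_X, uu_i1, map_zero]
    ring
  · simp only [Derivation.leibniz, map_add, pderiv_C, h10, pderiv_X_self, pd_ren1, smul_zero,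
      add_zero, smul_eq_mul, mul_one, map_mul, eval_C, hr, eval_X, uu_i1, map_zero, zero_add]
    ring

/-- the scheme `X` is birational to `w² = a (A u² + B u v + D v²)` -/
def Bir (A B D : MvPolynomial (Fin (n + 1)) ℤ) (a : ℤ) (X : Scheme.{0}) [IsIntegral X]
    (p : X ⟶ Spec (CommRingCat.of ℚ)) : Prop :=
  ∃ (K : Type) (_ : Field K) (_ : Algebra ℚ K) (e : X.functionField ≃+* K) (x : Fin (n + 1) → K)
    (t w : K), (∀ c : ℚ, e (toFF ℚ X p c) = algebraMap ℚ K c) ∧ x 0 = 1 ∧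
    AlgebraicIndependent ℚ (fun o : Option (Fin n) => o.elim t (fun j => x j.succ)) ∧
    IntermediateField.adjoin ℚ (insert w (insert t (Set.range x))) = ⊤ ∧
    w ^ 2 = (a : K) * value A B D x 1 t

theorem multi_of_bir {A B D : MvPolynomial (Fin (n + 1)) ℤ} {a : ℤ} {X : Scheme.{0}}
    [IsIntegral X] {p : X ⟶ Spec (CommRingCat.of ℚ)} (h : Bir A B D a X p) :
    BirationalToMultiCover ℚ (FF A B D a) X p := by
  obtain ⟨K, iK, iA, e, x, t, w, he, hx, hind, had, hw⟩ := h
  refine ⟨K, iK, iA, ⟨uu x ![1, t], w, ?_, ?_, ?_, ?_⟩, e, he⟩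
  · rintro ⟨i, hi⟩
    rcases i with _ | _ | i
    · exact hx
    · rfl
    · omega
  · let f : ((i : Fin 2) × Fin (dm n i)) → Option (Fin n) := fun l => match l with
      | ⟨0, j⟩ => some j
      | ⟨1, _⟩ => none
    have hf : Function.Injective f := by
      rintro ⟨i, j⟩ ⟨i', j'⟩ h
      match i, j, i', j', h with
      | 0, j, 0, j', h =>
        have h1 : j = j' := Option.some_injective _ h
        rw [h1]
      | 0, j, 1, j', h => exact absurd h (by simp [f])
      | 1, j, 0, j', h => exact absurd h (by simp [f])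
      | 1, j, 1, j', h =>
        have h1 : (j : Fin 1) = j' := Subsingleton.elim (α := Fin 1) j j'
        exact congrArg (Sigma.mk (1 : Fin 2)) h1
    have h1 := hind.comp f hf
    have h3 : (fun l : (i : Fin 2) × Fin (dm n i) => uu x ![1, t] ⟨l.1, l.2.succ⟩) =
        (fun o : Option (Fin n) => o.elim t (fun j => x j.succ)) ∘ f := by
      funext ⟨i, j⟩
      match i, j with
      | 0, j => rfl
      | 1, j =>
        obtain rfl : j = (⟨0, Nat.one_pos⟩ : Fin 1) := Subsingleton.elim (α := Fin 1) _ _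
        rfl
    rw [h3]
    exact h1
  · rw [aeval_FF, hw]
    rfl
  · rw [eq_top_iff, ← had]
    apply IntermediateField.adjoin.mono
    apply Set.insert_subset_insert
    apply Set.insert_subset
    · exact ⟨i1 1, rfl⟩
    · rintro _ ⟨j, rfl⟩
      exact ⟨i0 j, rfl⟩

/-- **The Hilbert property.** -/
theorem good (A B D : MvPolynomial (Fin (n + 1)) ℤ) (hA : A.IsHomogeneous 2)
    (hB : B.IsHomogeneous 2) (hD : D.IsHomogeneous 2) {a : ℤ} (ha : a ≠ 0)
    (hs : ∀ (x : Fin (n + 1) → ℚ) (u v : ℚ), x ≠ 0 → (u ≠ 0 ∨ v ≠ 0) →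
      2 * aeval x A * u + aeval x B * v = 0 → aeval x B * u + 2 * aeval x D * v = 0 →
      ¬ ∀ i, value (pderiv i A) (pderiv i B) (pderiv i D) x u v = 0)
    (hpt : ∃ (x : Fin (n + 1) → ℚ) (u v w : ℚ), x ≠ 0 ∧ (u ≠ 0 ∨ v ≠ 0) ∧
      w ^ 2 = (a : ℚ) * value A B D x u v)
    (X : Scheme.{0}) [IsIntegral X] (p : X ⟶ Spec (CommRingCat.of ℚ)) [LocallyOfFiniteType p]
    (hX : Bir A B D a X p) :
    DensePoints ℚ X p ∧ HilbertProperty ℚ X p ∧ UnirationalScheme ℚ X p ∧
      ((∀ x : X, IsIntegrallyClosed (X.presheaf.stalk x)) → HilbertPropertyIso ℚ X p) := by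
  obtain ⟨x, u, v, w, hx, huv, hw⟩ := hpt
  have haq : (a : ℚ) ≠ 0 := by exact_mod_cast ha
  have hsm : HasSmoothMultiPoint (FF A B D a) := by
    refine ⟨uu x ![u, v], w, ?_, ?_, ?_⟩
    · intro i
      match i with
      | 0 => exact Function.ne_iff.1 hx
      | 1 =>
        rcases huv with h | h
        · exact ⟨(0 : Fin 2), h⟩
        · exact ⟨(1 : Fin 2), h⟩
    · rw [eval_FF, hw]
      rfl
    · by_contra hcon
      push Not at hcon
      obtain ⟨-, h2⟩ := hcon
      have e0 := h2 (i1 0)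
      have e1 := h2 (i1 1)
      rw [(eval_pd1 A B D a x ![u, v]).1] at e0
      rw [(eval_pd1 A B D a x ![u, v]).2] at e1
      refine hs x u v hx huv ((mul_eq_zero.1 e0).resolve_left haq)
        ((mul_eq_zero.1 e1).resolve_left haq) fun i => ?_
      have e2 := h2 (i0 i)
      rw [eval_pd0] at e2
      exact (mul_eq_zero.1 e2).resolve_left haq
  have hF0 : FF A B D a ≠ 0 := by
    intro h0
    obtain ⟨y, c, h1, h2, h3⟩ := hsm
    rw [h0] at h2 h3
    rcases h3 with h3 | ⟨l, h3⟩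
    · rw [map_zero] at h2
      exact h3 (pow_eq_zero_iff (two_ne_zero) |>.1 h2)
    · rw [map_zero, map_zero] at h3
      exact h3 rfl
  have hk : ∃ S : Finset ℚ, IntermediateField.adjoin ℚ (S : Set ℚ) = ⊤ :=
    ⟨∅, eq_top_iff.2 fun c _ => (IntermediateField.adjoin ℚ _).algebraMap_mem c⟩
  have h := scheme_multi hk (FF A B D a) hF0 (FF_multi hA hB hD a) X p (multi_of_bir hX)
  have hHP := (h.out 1 2).1 hsm
  exact ⟨(h.out 0 1).2 hsm, hHP, (h.out 1 3).1 hsm,
    fun h1 => iso_of_hp Pool.Agent.W376.HP.nrm ℚ X p h1 hHP⟩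

end Pool.Agent.Q84.RM.Tw
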